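import Pool.Agent.H41.L1.REM
import Pool.Agent.H48.M5.Stmts
import Pool.Agent.H48.OC.Step
import Pool.Agent.H66.OC.Dec

/-!
# Row REM of the lemma L1
-/

set_option autoImplicit false

namespace Pool.L1

open Finset Real
open Pool.Agent.H49.Ent Pool.Agent.H32.Dense Pool.STK Pool.KAF Pool.KAL Pool.M5

section basic

variable {Ω : Type} [Fintype Ω]

theorem Pr_markov {p : Ω → ℝ} (hp : IsLaw p) (f : Ω → ℝ) (hf : ∀ ω, 0 < p ω → 0 ≤ f ω) {θ : ℝ}
    (hθ : 0 < θ) : Pr p {ω | θ < f ω} ≤ Ex p f / θ := by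
  classical
  rw [le_div_iff₀ hθ, Pool.KAF.Pr_eq, Finset.sum_mul]
  unfold Ex
  refine Finset.sum_le_sum fun ω _ => ?_
  rcases (hp.nonneg ω).lt_or_eq with h | h
  · by_cases h1 : θ < f ω
    · rw [if_pos (show ω ∈ {ω | θ < f ω} from h1)]
      exact mul_le_mul_of_nonneg_left h1.le (hp.nonneg ω)
    · rw [if_neg (show ω ∉ {ω | θ < f ω} from h1), zero_mul]
      exact mul_nonneg h.le (hf ω h)
  · rw [← h]
    simp

/-- Average of the conditional probabilities of an event. -/
theorem Ex_Pr {p : Ω → ℝ} {S : Type} (hp : ∀ ω, 0 ≤ p ω) (g : Ω → S) (B : Set Ω) :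
    Ex p (fun ω => Pr (Pool.Agent.H49.Ent.cond p g (g ω)) B) = Pr p B := by
  classical
  have h1 := Pool.OC.tower hp g (fun ω => if ω ∈ B then (1 : ℝ) else 0)
  unfold Ex
  rw [Pool.KAF.Pr_eq]
  have h2 : ∀ q : Ω → ℝ, Pr q B = ∑ ω', q ω' * (if ω' ∈ B then (1 : ℝ) else 0) := by
    intro q
    rw [Pool.KAF.Pr_eq]
    exact Finset.sum_congr rfl fun ω' _ => by split_ifs <;> simp
  simp only [h2]
  rw [h1]
  exact Finset.sum_congr rfl fun ω' _ => by split_ifs <;> simp

end basic

/-- Exponents of the derivative in the direction `j`. -/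
def alj {k K : ℕ} (j : Fin k) (i : {i : Mon k K // 1 ≤ (i : Fin k → ℕ) j}) : Fin k → ℕ :=
  Function.update (i.1 : Fin k → ℕ) j ((i.1 : Fin k → ℕ) j - 1)

theorem alj_inj {k K : ℕ} (j : Fin k) : Function.Injective (alj (K := K) j) := by
  intro i i' h
  apply Subtype.ext
  apply Subtype.ext
  funext l
  have h1 := congrFun h l
  unfold alj at h1
  by_cases hl : l = j
  · subst hl
    rw [Function.update_self, Function.update_self] at h1
    have h2 := i.2
    have h3 := i'.2
    omega
  · rw [Function.update_of_ne hl, Function.update_of_ne hl] at h1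
    exact h1

theorem alj_sum {k K : ℕ} (j : Fin k) (i : {i : Mon k K // 1 ≤ (i : Fin k → ℕ) j}) :
    ∑ l, alj j i l ≤ K := by
  have h1 := i.1.2
  unfold Mon at h1
  rw [Finset.mem_filter] at h1
  refine le_trans (Finset.sum_le_sum fun l _ => ?_) h1.2.2
  unfold alj
  by_cases hl : l = j
  · subst hl
    rw [Function.update_self]
    exact Nat.sub_le _ _
  · rw [Function.update_of_ne hl]

theorem mon_alj {k K : ℕ} (j : Fin k) (i : {i : Mon k K // 1 ≤ (i : Fin k → ℕ) j})
    (x : Fin k → ℝ) : Pool.SLP.mon (alj j i) x =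
      x j ^ ((i.1 : Fin k → ℕ) j - 1) * ∏ l ∈ univ.erase j, x l ^ (i.1 : Fin k → ℕ) l := by
  unfold Pool.SLP.mon
  rw [← Finset.mul_prod_erase univ (fun l => x l ^ alj j i l) (Finset.mem_univ j)]
  unfold alj
  rw [Function.update_self]
  congr 1
  refine Finset.prod_congr rfl fun l hl => ?_
  rw [Function.update_of_ne (Finset.mem_erase.1 hl).1]

/-- The derivative in the direction `j` as a sum of monomials. -/
theorem sum_dmono {k K : ℕ} (a : Mon k K → ℝ) (j : Fin k) (x : Fin k → ℝ) :
    ∑ i : Mon k K, a i * dmono (i : Fin k → ℕ) x j =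
      ∑ i : {i : Mon k K // 1 ≤ (i : Fin k → ℕ) j},
        (a i.1 * ((i.1 : Fin k → ℕ) j : ℝ)) * Pool.SLP.mon (alj j i) x := by
  classical
  have h1 : ∑ i : Mon k K, a i * dmono (i : Fin k → ℕ) x j =
      ∑ i ∈ univ.filter (fun i : Mon k K => 1 ≤ (i : Fin k → ℕ) j),
        a i * dmono (i : Fin k → ℕ) x j := by
    refine (Finset.sum_filter_of_ne fun i _ hne => ?_).symm
    by_contra hcon
    apply hne
    have h0 : (i : Fin k → ℕ) j = 0 := by omega
    unfold dmono
    rw [h0]
    simp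
  rw [h1, Finset.sum_subtype (p := fun i : Mon k K => 1 ≤ (i : Fin k → ℕ) j)
    (univ.filter fun i : Mon k K => 1 ≤ (i : Fin k → ℕ) j) (by simp)
    (fun i => a i * dmono (i : Fin k → ℕ) x j)]
  refine Finset.sum_congr rfl fun i _ => ?_
  rw [mon_alj]
  unfold dmono
  ring

/-- The position to `r'` digits. -/
theorem floor_dig (X r : ℕ) (z : ℤ) : ((⌊(2 : ℝ) ^ r * ((z : ℝ) / 2 ^ X)⌋ : ℤ) : ℝ) / 2 ^ r =
    ((⌊(2 : ℝ) ^ (min r X) * ((z : ℝ) / 2 ^ X)⌋ : ℤ) : ℝ) / 2 ^ (min r X) := by
  rcases le_total r X with h | h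
  · rw [min_eq_left h]
  · rw [min_eq_right h]
    obtain ⟨e, rfl⟩ := Nat.exists_eq_add_of_le h
    have hX : (2 : ℝ) ^ X ≠ 0 := by positivity
    have he : (2 : ℝ) ^ e ≠ 0 := by positivity
    have h1 : (2 : ℝ) ^ (X + e) * ((z : ℝ) / 2 ^ X) = ((2 ^ e * z : ℤ) : ℝ) := by
      push_cast
      rw [pow_add]
      field_simp
    have h2 : (2 : ℝ) ^ X * ((z : ℝ) / 2 ^ X) = (z : ℝ) := by field_simp
    rw [h1, h2, Int.floor_intCast, Int.floor_intCast, pow_add]
    push_cast
    field_simp

/-- The entropy of the position to `r` digits. -/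
theorem H_dig {Ω : Type} [Fintype Ω] {k : ℕ} {q : Ω → ℝ} (hq : IsLaw q) {X r : ℕ} (hr : r ≤ X)
    (y : Ω → Fin k → ℤ) : H q y ≤ H q (fun ω j => ⌊(2 : ℝ) ^ r * ((y ω j : ℝ) / 2 ^ X)⌋) +
      k * (((X : ℝ) - r) * Real.log 2) := by
  classical
  set y' : Ω → Fin k → ℤ := fun ω j => ⌊(2 : ℝ) ^ r * ((y ω j : ℝ) / 2 ^ X)⌋ with hy'
  have h1 : H q y ≤ H q y' + CH q y y' := by
    have h2 : H q y ≤ H q (fun ω => (y ω, y' ω)) :=
      H_mono hq.nonneg fun ω ω' _ _ h => (Prod.ext_iff.1 h).1
    unfold CH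
    linarith only [h2]
  have h3 : CH q y y' ≤ ∑ j : Fin k, CH q (fun ω => y ω j) y' := Pool.STK.Q22.CH_pi hq.nonneg y' k y
  have h4 : ∀ j : Fin k, CH q (fun ω => y ω j) y' ≤ ((X : ℝ) - r) * Real.log 2 := by
    intro j
    have h5 := CH_le_card hq.nonneg hq.sum_one (fun ω => y ω j) y'
      (fun v => Finset.Ico (2 ^ (X - r) * v j) (2 ^ (X - r) * (v j + 1))) (by
        intro ω _
        have e1 := Int.floor_le ((2 : ℝ) ^ r * ((y ω j : ℝ) / 2 ^ X))
        have e2 := Int.lt_floor_add_one ((2 : ℝ) ^ r * ((y ω j : ℝ) / 2 ^ X))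
        have e3 : (2 : ℝ) ^ (X - r) * ((2 : ℝ) ^ r * ((y ω j : ℝ) / 2 ^ X)) = y ω j := by
          rw [← mul_assoc, ← pow_add, Nat.sub_add_cancel hr]
          field_simp
        have hpos : (0 : ℝ) < 2 ^ (X - r) := by positivity
        rw [Finset.mem_Ico]
        constructor
        · have e4 := mul_le_mul_of_nonneg_left e1 hpos.le
          rw [e3] at e4
          have e5 : (((2 : ℤ) ^ (X - r) * y' ω j : ℤ) : ℝ) ≤ ((y ω j : ℤ) : ℝ) := by
            push_cast
            exact e4
          exact Int.cast_le.1 e5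
        · have e4 := mul_lt_mul_of_pos_left e2 hpos
          rw [e3] at e4
          have e5 : ((y ω j : ℤ) : ℝ) < (((2 : ℤ) ^ (X - r) * (y' ω j + 1) : ℤ) : ℝ) := by
            push_cast
            exact e4
          exact Int.cast_lt.1 e5)
    refine h5.trans ?_
    have h6 : ∀ ω, Real.log (((Finset.Ico (2 ^ (X - r) * y' ω j)
        (2 ^ (X - r) * (y' ω j + 1))).card : ℕ) : ℝ) = ((X : ℝ) - r) * Real.log 2 := by
      intro ω
      rw [Int.card_Ico]
      have e5 : (2 ^ (X - r) * (y' ω j + 1) - 2 ^ (X - r) * y' ω j : ℤ) =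
          ((2 ^ (X - r) : ℕ) : ℤ) := by push_cast; ring
      rw [e5, Int.toNat_natCast]
      push_cast
      rw [Real.log_pow, Nat.cast_sub hr]
    simp only [h6]
    rw [Ex_const hq.sum_one]
  have h5 : ∑ j : Fin k, CH q (fun ω => y ω j) y' ≤ k * (((X : ℝ) - r) * Real.log 2) := by
    refine (Finset.sum_le_sum fun j _ => h4 j).trans (le_of_eq ?_)
    rw [Finset.sum_const, nsmul_eq_mul, Finset.card_univ, Fintype.card_fin]
  linarith only [h1, h3, h5]

theorem exp_le_two_rpow {x : ℝ} (hx : 0 ≤ x) : Real.exp x ≤ (2 : ℝ) ^ (2 * x) := by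
  rw [Real.rpow_def_of_pos (by norm_num)]
  refine Real.exp_le_exp.mpr ?_
  have h1 : (1 : ℝ) / 2 ≤ Real.log 2 := by
    have := Real.log_two_gt_d9
    linarith only [this]
  nlinarith only [hx, h1]

theorem rem_thm : REMStmt := by
  classical
  intro k K
  obtain ⟨C₀, hC₀, hrem⟩ := rem_mon k K
  refine ⟨3 * C₀ + 2 * k + 2, by positivity, ?_⟩
  intro ε hε
  refine ⟨1, ?_⟩
  intro Ω ξ _ Q X r y x a ι M hQ hX hy hι hιX hH ha hM hMr hsmall
  set C : ℝ := 3 * C₀ + 2 * k + 2 with hC
  have hl2 : 0 < Real.log 2 := Real.log_pos (by norm_num)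
  have hl21 : Real.log 2 ≤ 1 := by
    have := Real.log_two_lt_d9
    linarith only [hl2, this]
  have hk0 : (0 : ℝ) ≤ k := Nat.cast_nonneg k
  have hX1 : (1 : ℝ) ≤ X := by exact_mod_cast hX
  have hX0 : (0 : ℝ) < X := by linarith only [hX1]
  have hs0 : 0 ≤ Real.sqrt ι := Real.sqrt_nonneg ι
  have hss : Real.sqrt ι * Real.sqrt ι = ι := Real.mul_self_sqrt hι
  -- the trivial case
  by_cases htriv : 1 ≤ C * Real.sqrt ι
  · refine (Pool.KAF.Pr_le_one hQ _).trans ?_
    linarith only [hε, htriv]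
  have hCs : C * Real.sqrt ι < 1 := not_le.mp htriv
  have hC1 : 1 ≤ C := by
    rw [hC]
    linarith only [hC₀]
  have hs1 : Real.sqrt ι < 1 := by nlinarith
  have hιs : ι ≤ Real.sqrt ι := by nlinarith
  have hsX : 1 ≤ Real.sqrt ι * X := hιX.trans (mul_le_mul_of_nonneg_right hιs hX0.le)
  -- the deficit
  set f : Ω → ℝ := fun ω => k * ((X + 2) * Real.log 2) -
    H (Pool.Agent.H49.Ent.cond Q x (x ω)) y with hf
  exact by
   have hHX : ∀ q : Ω → ℝ, IsLaw q → H q y ≤ k * ((X + 2) * Real.log 2) := by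
     intro q hq
     have h1 : H q y = CH q y (fun _ => ()) := Pool.OCG.H_eq_CH_unit hq y
     rw [h1]
     refine (Pool.STK.Q22.CH_pi hq.nonneg (fun _ => ()) k y).trans ?_
     have h2 : ∀ j : Fin k, CH q (fun ω => y ω j) (fun _ => ()) ≤ (X + 2) * Real.log 2 := by
       intro j
       refine (CH_le_card hq.nonneg hq.sum_one (fun ω => y ω j) (fun _ => ())
         (fun _ => Finset.Icc (-2 ^ X) (2 ^ X)) (by
           intro ω _
           have e1 := abs_le.1 (hy ω j)
           rw [Finset.mem_Icc]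
           constructor
           · have : ((-2 ^ X : ℤ) : ℝ) ≤ y ω j := by push_cast; exact e1.1
             exact_mod_cast this
           · have : ((y ω j : ℤ) : ℝ) ≤ ((2 ^ X : ℤ) : ℝ) := by push_cast; exact e1.2
             exact_mod_cast this)).trans ?_
       rw [Ex_const hq.sum_one]
       have e1 : (((Finset.Icc (-2 ^ X) (2 ^ X : ℤ)).card : ℕ) : ℝ) ≤ 2 ^ (X + 2) := by
         rw [Int.card_Icc]
         have e2 : (2 ^ X + 1 - -2 ^ X : ℤ) = ((2 * 2 ^ X + 1 : ℕ) : ℤ) := by
           push_cast; ring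
         rw [e2, Int.toNat_natCast]
         have e3 : 2 * 2 ^ X + 1 ≤ 2 ^ (X + 2) := by
           rw [pow_add _ X 2]
           have : 1 ≤ 2 ^ X := Nat.one_le_two_pow
           omega
         exact_mod_cast e3
       have e4 : (0 : ℝ) < (((Finset.Icc (-2 ^ X) (2 ^ X : ℤ)).card : ℕ) : ℝ) := by
         have : 0 < (Finset.Icc (-2 ^ X) (2 ^ X : ℤ)).card :=
           Finset.card_pos.2 ⟨0, by
             rw [Finset.mem_Icc]
             constructor
             · exact neg_nonpos.2 (by positivity)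
             · positivity⟩
         exact_mod_cast this
       refine (Real.log_le_log e4 e1).trans (le_of_eq ?_)
       rw [Real.log_pow]
       push_cast
       ring
     refine (Finset.sum_le_sum fun j _ => h2 j).trans (le_of_eq ?_)
     rw [Finset.sum_const, nsmul_eq_mul, Finset.card_univ, Fintype.card_fin]
   exact by
    have hf0 : ∀ ω, 0 < Q ω → 0 ≤ f ω := by
      intro ω hω
      have := hHX _ (Pool.KX.AVG.cond_law hQ x hω)
      simp only [hf]
      linarith only [this]
    have hEf : Ex Q f ≤ (2 * k + 1) * (ι * X) := by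
      have h1 : Ex Q f = k * ((X + 2) * Real.log 2) - CH Q y x := by
        rw [Pool.OCG.CH_eq_Ex hQ.nonneg, hf, Ex_sub, Ex_const hQ.sum_one]
      rw [h1]
      have h2 : (k : ℝ) * ((X + 2) * Real.log 2) - (k - ι) * X * Real.log 2 =
          2 * k * Real.log 2 + ι * X * Real.log 2 := by ring
      have h3 : 2 * (k : ℝ) * Real.log 2 ≤ 2 * k * (ι * X) := by
        refine mul_le_mul_of_nonneg_left ?_ (by positivity)
        linarith only [hιX, hl21]
      have h4 : ι * X * Real.log 2 ≤ ι * X := by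
        have : 0 ≤ ι * X := by linarith only [hιX]
        nlinarith only [hl21, hιX]
      have h5 : (2 * (k : ℝ) + 1) * (ι * X) = 2 * k * (ι * X) + ι * X := by ring
      linarith only [hH, h3, h4]
    set θ : ℝ := Real.sqrt ι * X with hθ
    have hθ0 : 0 < θ := by linarith only [hsX]
    have hbad1 : Pr Q {ω | θ < f ω} ≤ (2 * k + 1) * Real.sqrt ι := by
      refine (Pr_markov hQ f hf0 hθ0).trans ?_
      rw [div_le_iff₀ hθ0]
      refine hEf.trans (le_of_eq ?_)
      rw [hθ]
      calc (2 * (k : ℝ) + 1) * (ι * X) = (2 * k + 1) * ((Real.sqrt ι * Real.sqrt ι) * X) := by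
            rw [hss]
        _ = _ := by ring
    -- the bad event
    exact by
     set B : Set Ω := {ω | (2 : ℝ) ^ (-M) < ‖fun j => ∑ i : Mon k K, a (x ω) i *
         dmono (i : Fin k → ℕ) (fun j => ⌊(2 : ℝ) ^ r * (y ω j / 2 ^ X)⌋ / 2 ^ r) j‖} with hB
     have hbad2 : Pr Q {ω | 1 / 2 < Pr (Pool.Agent.H49.Ent.cond Q x (x ω)) B} ≤ 2 * ε := by
       refine (Pr_markov hQ (fun ω => Pr (Pool.Agent.H49.Ent.cond Q x (x ω)) B)
         (fun ω hω => Pool.KAF.Pr_nonneg (cond_nonneg hQ.nonneg _ _) _) (by norm_num)).trans ?_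
       rw [Ex_Pr hQ.nonneg]
       linarith only [hsmall]
     set r' : ℕ := min r X with hr'
     set y' : Ω → Fin k → ℤ := fun ω j => ⌊(2 : ℝ) ^ r' * ((y ω j : ℝ) / 2 ^ X)⌋ with hy'
     -- the main claim
     have main : ∀ ω, 0 < Q ω → ¬ θ < f ω →
         ¬ 1 / 2 < Pr (Pool.Agent.H49.Ent.cond Q x (x ω)) B →
         ∀ i : Mon k K, |a (x ω) i| ≤ (2 : ℝ) ^ (C * Real.sqrt ι * X - M) := by
       intro ω hω h1 h2 i
       have hlaw := Pool.KX.AVG.cond_law hQ x hω
       set q := Pool.Agent.H49.Ent.cond Q x (x ω) with hq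
       have hC₀X : C₀ * Real.exp (C₀ * θ) ≤ (2 : ℝ) ^ (3 * C₀ * θ) := by
         have e1 : C₀ ≤ (2 : ℝ) ^ (C₀ * θ) := by
           have e2 : C₀ ≤ (2 : ℝ) ^ C₀ := by
             have e3 := one_add_mul_self_le_rpow_one_add (s := 1) (by norm_num) hC₀
             have e4 : (1 : ℝ) + 1 = 2 := by norm_num
             rw [e4] at e3
             linarith only [e3]
           refine e2.trans (Real.rpow_le_rpow_of_exponent_le (by norm_num) ?_)
           nlinarith only [hsX, hC₀]
         have e5 := exp_le_two_rpow (x := C₀ * θ) (by positivity)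
         calc C₀ * Real.exp (C₀ * θ) ≤ (2 : ℝ) ^ (C₀ * θ) * (2 : ℝ) ^ (2 * (C₀ * θ)) :=
               mul_le_mul e1 e5 (Real.exp_pos _).le (by positivity)
           _ = (2 : ℝ) ^ (3 * C₀ * θ) := by
               rw [← Real.rpow_add (by norm_num)]
               congr 1
               ring
       have hexpo : 3 * C₀ * θ - M ≤ C * Real.sqrt ι * X - M := by
         have : C * Real.sqrt ι * X = C * θ := by rw [hθ]; ring
         rw [this]
         have : 3 * C₀ * θ ≤ C * θ := mul_le_mul_of_nonneg_right (by rw [hC]; linarith only) hθ0.le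
         linarith only [this]
       by_cases hsz : C₀ * Real.exp (C₀ * θ) ≤ 2 ^ r'
       · -- the Remez inequality
         have hHq : k * (r' * Real.log 2) - θ ≤ H q y' := by
           have e1 := H_dig hlaw (min_le_right r X) y
           have e2 : f ω ≤ θ := not_lt.mp h1
           simp only [hf] at e2
           have e3 : (k : ℝ) * ((X + 2) * Real.log 2) = k * (r' * Real.log 2) +
               k * (((X : ℝ) - r') * Real.log 2) + 2 * k * Real.log 2 := by ring
           have e4 : 0 ≤ 2 * (k : ℝ) * Real.log 2 := by positivity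
           rw [e3] at e2
           linarith only [h1, e1, e4]
         have hhalf : 1 / 2 ≤ Pr q Bᶜ := by
           have e1 : Pr q B + Pr q Bᶜ = 1 := by
             rw [Pool.KAF.Pr_eq, Pool.KAF.Pr_eq, ← Finset.sum_add_distrib, ← hlaw.sum_one]
             refine Finset.sum_congr rfl fun ω' _ => ?_
             by_cases h : ω' ∈ B
             · rw [if_pos h, if_neg (fun h' : ω' ∈ Bᶜ => h' h), add_zero]
             · rw [if_neg h, if_pos (show ω' ∈ Bᶜ from h), zero_add]
           have e2 : Pr q B ≤ 1 / 2 := not_lt.mp h2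
           linarith only [h2, e1]
         obtain ⟨j, hj⟩ : ∃ j : Fin k, 1 ≤ (i : Fin k → ℕ) j := by
           by_contra hcon
           push Not at hcon
           have e1 := i.2
           unfold Mon at e1
           rw [Finset.mem_filter] at e1
           have e2 : ∑ l, (i : Fin k → ℕ) l = 0 :=
             Finset.sum_eq_zero fun l _ => by have := hcon l; omega
           omega
         have hyb : ∀ ω', 0 < q ω' → ∀ l, |((y' ω' l : ℤ) : ℝ)| ≤ 2 ^ r' := by
           intro ω' _ l
           have e1 := abs_le.1 (hy ω' l)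
           have hX' : (0 : ℝ) < 2 ^ X := by positivity
           have hr2 : (0 : ℝ) < 2 ^ r' := by positivity
           have e2 : (y ω' l : ℝ) / 2 ^ X ≤ 1 := by rw [div_le_one hX']; exact e1.2
           have e3 : -1 ≤ (y ω' l : ℝ) / 2 ^ X := by rw [le_div_iff₀ hX']; linarith only [e1, e1.1]
           rw [abs_le]
           constructor
           · have e4 : (-2 ^ r' : ℤ) ≤ y' ω' l := by
               simp only [hy']
               rw [Int.le_floor]
               push_cast
               nlinarith only [hr2, e3]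
             exact_mod_cast e4
           · have e5 := Int.floor_le ((2 : ℝ) ^ r' * ((y ω' l : ℝ) / 2 ^ X))
             simp only [hy']
             nlinarith only [e5, hr2, e2]
         have key := hrem Ω {i : Mon k K // 1 ≤ (i : Fin k → ℕ) j} q r' y' (alj j)
           (fun i => a (x ω) i.1 * ((i.1 : Fin k → ℕ) j : ℝ)) θ ((2 : ℝ) ^ (-M)) Bᶜ hlaw
           (alj_inj j) (alj_sum j) hθ0.le (by positivity) hyb hHq hsz hhalf (by
             intro ω' hω' hqω'
             rw [← sum_dmono]
             have e1 : ¬ (2 : ℝ) ^ (-M) < ‖fun j => ∑ i : Mon k K, a (x ω') i *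
               dmono (i : Fin k → ℕ) (fun j => ⌊(2 : ℝ) ^ r * (y ω' j / 2 ^ X)⌋ / 2 ^ r) j‖ := hω'
             have e2 : x ω' = x ω := ((cond_pos_iff hQ.nonneg _ _ _).1 hqω').2
             rw [e2] at e1
             have e3 := (norm_le_pi_norm (fun j => ∑ i : Mon k K, a (x ω) i *
               dmono (i : Fin k → ℕ) (fun j => ⌊(2 : ℝ) ^ r * (y ω' j / 2 ^ X)⌋ / 2 ^ r) j) j).trans
               (not_lt.mp e1)
             rw [Real.norm_eq_abs] at e3
             have e4 : (fun j => (⌊(2 : ℝ) ^ r * ((y ω' j : ℝ) / 2 ^ X)⌋ : ℝ) / 2 ^ r) =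
                 fun j => ((y' ω' j : ℤ) : ℝ) / 2 ^ r' := by
               funext l
               exact floor_dig X r (y ω' l)
             rw [e4] at e3
             exact e3) ⟨i, hj⟩
         have e1 : |a (x ω) i| ≤ |a (x ω) i * ((i : Fin k → ℕ) j : ℝ)| := by
           rw [abs_mul, Nat.abs_cast]
           have e2 : (1 : ℝ) ≤ ((i : Fin k → ℕ) j : ℝ) := by exact_mod_cast hj
           nlinarith only [e2, abs_nonneg (a (x ω) i)]
         refine e1.trans (key.trans ?_)
         calc C₀ * Real.exp (C₀ * θ) * (2 : ℝ) ^ (-M) ≤ (2 : ℝ) ^ (3 * C₀ * θ) * (2 : ℝ) ^ (-M) :=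
               mul_le_mul_of_nonneg_right hC₀X (by positivity)
           _ = (2 : ℝ) ^ (3 * C₀ * θ - M) := by
               rw [← Real.rpow_add (by norm_num)]
               rfl
           _ ≤ _ := Real.rpow_le_rpow_of_exponent_le (by norm_num) hexpo
       · -- few digits
         have e1 : (2 : ℝ) ^ r' < (2 : ℝ) ^ (3 * C₀ * θ) := (not_le.mp hsz).trans_le hC₀X
         have e2 : (r' : ℝ) < 3 * C₀ * θ := by
           rw [← Real.rpow_natCast] at e1
           exact (Real.rpow_lt_rpow_left_iff (by norm_num)).1 e1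
         have e3 : 3 * C₀ * θ < X := by
           have : 3 * C₀ * Real.sqrt ι < 1 := by
             have e4 : 3 * C₀ * Real.sqrt ι ≤ C * Real.sqrt ι :=
               mul_le_mul_of_nonneg_right (by rw [hC]; linarith only) hs0
             linarith only [htriv, e4]
           rw [hθ]
           nlinarith
         have e4 : r' = r := by
           have : (r' : ℝ) < X := by linarith only [e2, e3]
           have h5 : r' < X := by exact_mod_cast this
           rw [hr'] at h5 ⊢
           rcases le_total r X with h6 | h6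
           · exact min_eq_left h6
           · rw [min_eq_right h6] at h5
             exact absurd h5 (lt_irrefl _)
         rw [e4] at e2
         refine (ha (x ω) i).trans (Real.rpow_le_rpow_of_exponent_le (by norm_num) ?_)
         have e5 : C * Real.sqrt ι * X = C * θ := by rw [hθ]; ring
         rw [e5]
         have e6 : (3 * C₀ + 1) * θ ≤ C * θ := mul_le_mul_of_nonneg_right (by rw [hC]; linarith only) hθ0.le
         have e7 : ι * X ≤ θ := mul_le_mul_of_nonneg_right hιs hX0.le
         nlinarith only [hMr, e2, e6, e7]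
     -- the union bound
     exact by
      have hsub : Pr Q {ω | ∃ i : Mon k K, (2 : ℝ) ^ (C * Real.sqrt ι * X - M) < |a (x ω) i|} ≤
          Pr Q ({ω | θ < f ω} ∪ {ω | 1 / 2 < Pr (Pool.Agent.H49.Ent.cond Q x (x ω)) B}) := by
        refine Pool.KAF.Pr_mono hQ.nonneg fun ω hω hmem => ?_
        obtain ⟨i, hi⟩ := hmem
        by_contra hcon
        have h1 : ¬ θ < f ω := fun h => hcon (Or.inl h)
        have h2 : ¬ 1 / 2 < Pr (Pool.Agent.H49.Ent.cond Q x (x ω)) B := fun h => hcon (Or.inr h)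
        exact absurd (main ω hω h1 h2 i) (not_le.mpr hi)
      refine hsub.trans ((Pool.KAF.Pr_union_le hQ.nonneg _ _).trans ?_)
      have hfin : (2 * (k : ℝ) + 1) * Real.sqrt ι ≤ C * Real.sqrt ι :=
        mul_le_mul_of_nonneg_right (by rw [hC]; linarith only [hC₀]) hs0
      linarith only [hbad1, hbad2, hfin]

end Pool.L1
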