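import Pool.Agent.H41.L1.LAG
import Pool.Agent.H41.L1.REMS
import Pool.Agent.H87.SLO.Tup
import Pool.Agent.H48.OC.Core

/-!
# Row LAM of the lemma L1: the label is maximal
-/

set_option autoImplicit false

namespace Pool.L1

open Finset Real
open Pool.Agent.H49.Ent Pool.Agent.H32.Dense Pool.STK Pool.KAF Pool.M5

section basic

variable {Ω Ω' : Type} [Fintype Ω] [Fintype Ω']

/-- The probability of an event of the image. -/
theorem Pr_marg {q : Ω' → ℝ} {p : Ω → ℝ} {pr : Ω' → Ω} (h : Marg q p pr) (E : Set Ω) :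
    Pr q {w | pr w ∈ E} = Pr p E := by
  classical
  have h1 := h.ex (fun ω => if ω ∈ E then (1 : ℝ) else 0)
  have h2 : ∀ {Ω : Type} [Fintype Ω] (p : Ω → ℝ) (E : Set Ω),
      Pr p E = Ex p (fun ω => if ω ∈ E then (1 : ℝ) else 0) := by
    intro Ω _ p E
    rw [Pool.KAF.Pr_eq]
    unfold Ex
    refine Finset.sum_congr rfl fun ω' _ => ?_
    show (if ω' ∈ E then p ω' else 0) = p ω' * (if ω' ∈ E then (1 : ℝ) else 0)
    by_cases h3 : ω' ∈ E
    · rw [if_pos h3, if_pos h3, mul_one]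
    · rw [if_neg h3, if_neg h3, mul_zero]
  rw [h2, h2, ← h1]
  rfl

omit [Fintype Ω'] in
/-- Gluing over labels which agree on the support. -/
theorem glue_congr_snd {T : Type} {p₁ : Ω → ℝ} {p₂ : Ω' → ℝ} {Z₁ : Ω → T} {Z₂ Z₂' : Ω' → T}
    (h₂ : ∀ ω, 0 ≤ p₂ ω) (h : ∀ ω, 0 < p₂ ω → Z₂ ω = Z₂' ω) :
    glue p₁ p₂ Z₁ Z₂ = glue p₁ p₂ Z₁ Z₂' := by
  classical
  funext w
  unfold glue
  rcases (h₂ w.2).eq_or_lt with h0 | h0
  · rw [← h0]
    simp
  · rw [h w.2 h0]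

end basic

section dat

variable {k n : ℕ} {I : Type} [Fintype I] (b : Bas k I) (d : LDat k n I)

omit [Fintype I] in
theorem Qr_eq : d.Qr = Pool.SLO.tup d.P d.L n := by
  classical
  funext v
  rw [Pool.SLO.tup_eq]
  unfold LDat.Qr
  congr 1

omit [Fintype I] in
theorem Qr_isLaw (hp : IsLaw d.P) : IsLaw d.Qr := by
  rw [Qr_eq]
  exact Pool.SLO.tup_isLaw hp d.L n

omit [Fintype I] in
theorem Qr_law (hp : ∀ ω, 0 ≤ d.P ω) (z : d.Lam) :
    law d.Qr (fun v => d.L (v 0)) z = law d.P d.L z := by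
  rw [Qr_eq]
  exact Pool.SLO.tup_law hp d.L n z

omit [Fintype I] in
theorem Qp_fst (hp : ∀ ω, 0 ≤ d.P ω) (i : ℕ) : Marg (d.Qp i) d.P (fun w => w.1) := by
  unfold LDat.Qp dbl
  exact marg_fst hp fun _ => rfl

omit [Fintype I] in
theorem Qp_law (hp : ∀ ω, 0 ≤ d.P ω) (i : ℕ) (z : d.Lam) :
    law (d.Qp i) (fun w => d.L w.1) z = law d.P d.L z :=
  (Qp_fst d hp i).law d.L z

omit [Fintype I] in
theorem Qp_nonneg (hp : ∀ ω, 0 ≤ d.P ω) (i : ℕ) (w : d.Om × d.Om) : 0 ≤ d.Qp i w := by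
  unfold LDat.Qp dbl
  exact glue_nonneg hp hp w

omit [Fintype I] in
theorem Q4_hZ (hp : ∀ ω, 0 ≤ d.P ω) (i : ℕ) (z : d.Lam) :
    law d.Qr (fun v => d.L (v 0)) z = law (d.Qp i) (fun w => d.L w.1) z := by
  rw [Qr_law d hp, Qp_law d hp]

omit [Fintype I] in
theorem Q4_fst (hp : IsLaw d.P) (i : ℕ) : Marg (d.Q4 i) d.Qr (fun u => u.1) :=
  marg_fst (Qr_isLaw d hp).nonneg (Q4_hZ d hp.nonneg i)

omit [Fintype I] in
theorem Q4_snd (hp : IsLaw d.P) (i : ℕ) : Marg (d.Q4 i) (d.Qp i) (fun u => u.2) :=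
  marg_snd (Qp_nonneg d hp.nonneg i) (Q4_hZ d hp.nonneg i)

omit [Fintype I] in
theorem Q4_nonneg (hp : IsLaw d.P) (i : ℕ) (u) : 0 ≤ d.Q4 i u :=
  glue_nonneg (Qr_isLaw d hp).nonneg (Qp_nonneg d hp.nonneg i) u

omit [Fintype I] in
theorem Q4_isLaw (hp : IsLaw d.P) (i : ℕ) : IsLaw (d.Q4 i) :=
  ⟨Q4_nonneg d hp i, by rw [(Q4_fst d hp i).sum]; exact (Qr_isLaw d hp).sum_one⟩

omit [Fintype I] in
theorem Q4_pos (hp : IsLaw d.P) (i : ℕ) {u} (h : 0 < d.Q4 i u) :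
    0 < d.Qr u.1 ∧ 0 < d.Qp i u.2 ∧ d.L (u.1 0) = d.L u.2.1 :=
  (glue_pos_iff (Qr_isLaw d hp).nonneg (Qp_nonneg d hp.nonneg i) u).1 h

omit [Fintype I] in
theorem Q4_P (hp : IsLaw d.P) (i : ℕ) : Marg (d.Q4 i) d.P (fun u => u.1 0) := by
  have h1 : Marg d.Qr d.P (fun v => v 0) := by
    rw [Qr_eq]
    exact Pool.SLO.tup_marg hp.nonneg d.L n 0
  exact (Q4_fst d hp i).comp h1

/-- The pairs at the scale `0`. -/
theorem Qp0_eq {A : ℕ} {c : ℝ} (hd : d.OK b A c) : d.Qp 0 = dbl d.P d.L := by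
  classical
  have hT : ∀ ω, d.Ti 0 ω = 0 := by
    intro ω
    unfold LDat.Ti
    rw [pow_zero, one_mul]
    have h1 := hd.hth (d.T ω)
    exact Int.floor_eq_zero_iff.2 ⟨h1.1, h1.2⟩
  funext w
  unfold LDat.Qp dbl glue
  simp only [hT]
  have h1 : ∀ l, law d.P (fun ω => (d.L ω, (0 : ℤ))) (l, 0) = law d.P d.L l := by
    intro l
    unfold law
    refine Finset.sum_congr rfl fun ω _ => ?_
    simp
  by_cases h : d.L w.1 = d.L w.2
  · rw [if_pos h, if_pos (by rw [h]), h1]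
  · rw [if_neg h, if_neg (fun h' => h (Prod.ext_iff.1 h').1)]

/-- Two references and a pair of one line. -/
noncomputable def Q5 (i : ℕ) :
    (Fin (n + 1) → d.Om) × ((Fin (n + 1) → d.Om) × (d.Om × d.Om)) → ℝ :=
  glue d.Qr (d.Q4 i) (fun v => d.L (v 0)) (fun u => d.L (u.1 0))

omit [Fintype I] in
theorem Q5_hZ (hp : IsLaw d.P) (i : ℕ) (z : d.Lam) :
    law d.Qr (fun v => d.L (v 0)) z = law (d.Q4 i) (fun u => d.L (u.1 0)) z := by
  rw [(Q4_P d hp i).law d.L z, Qr_law d hp.nonneg]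

omit [Fintype I] in
theorem Q5_nonneg (hp : IsLaw d.P) (i : ℕ) (w) : 0 ≤ Q5 d i w :=
  glue_nonneg (Qr_isLaw d hp).nonneg (Q4_nonneg d hp i) w

omit [Fintype I] in
/-- The second reference and the pair. -/
theorem Q5_snd (hp : IsLaw d.P) (i : ℕ) : Marg (Q5 d i) (d.Q4 i) (fun w => w.2) :=
  marg_snd (Q4_nonneg d hp i) (Q5_hZ d hp i)

omit [Fintype I] in
/-- The first reference and the pair. -/
theorem Q5_fst (hp : IsLaw d.P) (i : ℕ) : Marg (Q5 d i) (d.Q4 i) (fun w => (w.1, w.2.2)) := by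
  have h1 : Q5 d i = glue d.Qr (d.Q4 i) (fun v => d.L (v 0)) (fun u => d.L u.2.1) :=
    glue_congr_snd (Q4_nonneg d hp i) fun u hu => (Q4_pos d hp i hu).2.2
  rw [h1]
  exact Marg.glue (Z₁ := fun v : Fin (n + 1) → d.Om => d.L (v 0)) (Z₂ := fun w => d.L w.1)
    (Marg.id d.Qr) (Q4_snd d hp i)

/-- The first reference and two samples of the second one. -/
theorem Q5_two {A : ℕ} {c : ℝ} (hd : d.OK b A c) (i : ℕ) {j : Fin (n + 1)} (hj : 0 ≠ j) :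
    Marg (Q5 d i) (d.Q4 0) (fun w => (w.1, (w.2.1 0, w.2.1 j))) := by
  have h1 : Marg (d.Q4 i) (d.Qp 0) (fun u => (u.1 0, u.1 j)) := by
    have h2 : Marg d.Qr (d.Qp 0) (fun v => (v 0, v j)) := by
      rw [Qr_eq, Qp0_eq b d hd]
      exact Pool.SLO.tup_two hd.law.nonneg d.L 0 j hj
    exact (Q4_fst d hd.law i).comp h2
  exact Marg.glue (Z₁ := fun v : Fin (n + 1) → d.Om => d.L (v 0)) (Z₂ := fun w => d.L w.1)
    (Marg.id d.Qr) h1

/-- The times of the references are separated. -/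
theorem sep_prob {A : ℕ} {c : ℝ} (hd : d.OK b A c) {k₀ : ℕ} {ε : ℝ} (hTC : TC d k₀ ε) :
    Pr d.Qr {v | ¬ d.sep k₀ v} ≤ (n + 1) ^ 2 * ε := by
  classical
  have hQ := Qr_isLaw d hd.law
  set E : Fin (n + 1) × Fin (n + 1) → Set (Fin (n + 1) → d.Om) := fun x =>
    {v | x.1 ≠ x.2 ∧ |d.th (d.T (v x.2)) - d.th (d.T (v x.1))| < (2 : ℝ) ^ (-(k₀ : ℤ))} with hE
  have h1 : Pr d.Qr {v | ¬ d.sep k₀ v} ≤ Pr d.Qr {v | ∃ x, v ∈ E x} := by
    refine Pool.KAF.Pr_mono hQ.nonneg fun v _ hv => ?_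
    have hv' : ¬ d.sep k₀ v := hv
    unfold LDat.sep at hv'
    push Not at hv'
    obtain ⟨j, j', h2, h3⟩ := hv'
    refine ⟨(j, j'), h2, ?_⟩
    rw [abs_sub_comm]
    exact h3
  refine h1.trans ((Pool.OCG.Dat.Pr_exists_le hQ.nonneg E).trans ?_)
  have h2 : ∀ x ∈ (univ : Finset (Fin (n + 1) × Fin (n + 1))), Pr d.Qr (E x) ≤ ε := by
    intro x _
    by_cases hx : x.1 = x.2
    · have h3 : Pr d.Qr (E x) ≤ Pr d.Qr ∅ :=
        Pool.KAF.Pr_mono hQ.nonneg fun v _ hv => absurd hx hv.1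
      have h4 : Pr d.Qr (∅ : Set (Fin (n + 1) → d.Om)) = 0 := by
        rw [Pool.KAF.Pr_eq]
        simp
      have h5 : 0 ≤ ε := (Pool.KAF.Pr_nonneg (Qp_nonneg d hd.law.nonneg 0) _).trans hTC
      linarith
    · have h3 : Marg d.Qr (d.Qp 0) (fun v => (v x.1, v x.2)) := by
        rw [Qr_eq, Qp0_eq b d hd]
        exact Pool.SLO.tup_two hd.law.nonneg d.L x.1 x.2 hx
      have h4 := Pr_marg h3 {w | |d.ta w| < (2 : ℝ) ^ (-(k₀ : ℤ))}
      have h5 : Pr d.Qr (E x) ≤ Pr d.Qr {w | (w x.1, w x.2) ∈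
          {w | |d.ta w| < (2 : ℝ) ^ (-(k₀ : ℤ))}} :=
        Pool.KAF.Pr_mono hQ.nonneg fun v _ hv => hv.2
      rw [h4] at h5
      exact h5.trans hTC
  refine (Finset.sum_le_sum h2).trans (le_of_eq ?_)
  rw [Finset.sum_const, nsmul_eq_mul, Finset.card_univ, Fintype.card_prod, Fintype.card_fin]
  push_cast
  ring

/-- The gradient of a pair, relative to a reference, in terms of the gradients at the times. -/
theorem gr_apply (r : ℕ) (u : (Fin (n + 1) → d.Om) × (d.Om × d.Om)) (j : Fin k) :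
    d.gr b r u j =
      (grd b (d.co (d.T u.2.2)) (d.y₀ r (d.L (u.1 0))) j -
        grd b (d.co (d.T u.2.1)) (d.y₀ r (d.L (u.1 0))) j) -
      ∑ a : Fin n, (d.th (d.T u.2.2) ^ (a.val + 1) - d.th (d.T u.2.1) ^ (a.val + 1)) *
        lag (fun j' => d.th (d.T (u.1 j')))
          (fun j' => grd b (d.co (d.T (u.1 j'))) (d.y₀ r (d.L (u.1 0))) j) (a.val + 1) := by
  classical
  have h1 : ∀ a : Fin n, lag (fun j' => d.th (d.T (u.1 j')))
      (fun j' => grd b (d.co (d.T (u.1 j'))) (d.y₀ r (d.L (u.1 0))) j) (a.val + 1) =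
      ∑ i, d.As u.1 a i * b.D i (d.y₀ r (d.L (u.1 0))) j := by
    intro a
    unfold grd LDat.As
    rw [lag_sum]
    exact Finset.sum_congr rfl fun i _ => lag_smul _ _ _ _
  simp only [h1]
  have h2 : ∑ a : Fin n, (d.th (d.T u.2.2) ^ (a.val + 1) - d.th (d.T u.2.1) ^ (a.val + 1)) *
      ∑ i, d.As u.1 a i * b.D i (d.y₀ r (d.L (u.1 0))) j =
      ∑ i, (∑ a, d.dt a u.2 * d.As u.1 a i) * b.D i (d.y₀ r (d.L (u.1 0))) j := by
    simp only [Finset.mul_sum, Finset.sum_mul]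
    rw [Finset.sum_comm]
    refine Finset.sum_congr rfl fun i _ => Finset.sum_congr rfl fun a _ => ?_
    unfold LDat.dt
    ring
  rw [h2]
  unfold LDat.gr LDat.rs LDat.sg grd
  rw [← Finset.sum_sub_distrib, ← Finset.sum_sub_distrib]
  exact Finset.sum_congr rfl fun i _ => by ring

/-- **Two references of one line**, for the gradients. -/
theorem gr_two {A : ℕ} {c : ℝ} (hd : d.OK b A c) (r k₀ : ℕ) (m : ℤ) (k₅ : ℕ)
    (hk : 1 + (n : ℝ) ^ 2 * ((n + 1) * 2 ^ ((k₀ + 1) * n)) ≤ 2 ^ k₅)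
    (Λ : Fin n → Fin k → ℝ) (v v' : Fin (n + 1) → d.Om) (w : d.Om × d.Om)
    (hL : d.L (v' 0) = d.L (v 0)) (hs : d.sep k₀ v')
    (h0 : ∀ j, 0 ≠ j → ‖fun i => d.gr b r (v, (v' 0, v' j)) i -
      ∑ a, d.dt a (v' 0, v' j) * Λ a i‖ ≤ (2 : ℝ) ^ (-(m + k₅)) * |d.ta (v' 0, v' j)|)
    (h1 : ‖fun i => d.gr b r (v, w) i - ∑ a, d.dt a w * Λ a i‖ ≤
      (2 : ℝ) ^ (-(m + k₅)) * |d.ta w|) :
    ‖d.gr b r (v', w)‖ ≤ (2 : ℝ) ^ (-m) * |d.ta w| := by
  classical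
  set δ : ℝ := (2 : ℝ) ^ (-(m + k₅)) with hδ
  have hδ0 : 0 < δ := by rw [hδ]; positivity
  have hfin : (1 + (n : ℝ) ^ 2 * ((n + 1) * 2 ^ ((k₀ + 1) * n))) * δ ≤ (2 : ℝ) ^ (-m) := by
    have e1 : (2 : ℝ) ^ k₅ * δ = (2 : ℝ) ^ (-m) := by
      rw [hδ, ← zpow_natCast, ← zpow_add₀ (by norm_num)]
      congr 1
      ring
    rw [← e1]
    exact mul_le_mul_of_nonneg_right hk hδ0.le
  rw [pi_norm_le_iff_of_nonneg (by positivity)]
  intro i
  rw [Real.norm_eq_abs]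
  set y := d.y₀ r (d.L (v 0)) with hy
  set φ : d.Tau → ℝ := fun t => grd b (d.co t) y i with hφ
  set B : Fin n → ℝ := fun a => lag (fun j' => d.th (d.T (v j'))) (fun j' => φ (d.T (v j')))
    (a.val + 1) + Λ a i with hB
  have hgv : ∀ x : d.Om × d.Om, d.gr b r (v, x) i - ∑ a, d.dt a x * Λ a i =
      (φ (d.T x.2) - φ (d.T x.1)) - ∑ a : Fin n, (d.th (d.T x.2) ^ (a.val + 1) -
        d.th (d.T x.1) ^ (a.val + 1)) * B a := by
    intro x
    rw [gr_apply]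
    simp only [hB, mul_add, Finset.sum_add_distrib]
    unfold LDat.dt
    ring
  have h0' : ∀ j, |(φ (d.T (v' j)) - φ (d.T (v' 0))) - ∑ a : Fin n, (d.th (d.T (v' j)) ^
      (a.val + 1) - d.th (d.T (v' 0)) ^ (a.val + 1)) * B a| ≤ δ := by
    intro j
    by_cases hj : 0 = j
    · subst hj
      simp [hδ0.le]
    · have e1 := (norm_le_pi_norm _ i).trans (h0 j hj)
      rw [Real.norm_eq_abs] at e1
      have e2 := hgv (v' 0, v' j)
      simp only at e2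
      rw [e2] at e1
      refine e1.trans ?_
      have e3 : |d.ta (v' 0, v' j)| ≤ 1 := by
        unfold LDat.ta
        have e4 := hd.hth (d.T (v' 0))
        have e5 := hd.hth (d.T (v' j))
        rw [abs_le]
        constructor <;> simp only <;> linarith
      calc δ * |d.ta (v' 0, v' j)| ≤ δ * 1 := mul_le_mul_of_nonneg_left e3 hδ0.le
        _ = δ := mul_one _
  have h1' : |(φ (d.T w.2) - φ (d.T w.1)) - ∑ a : Fin n, (d.th (d.T w.2) ^ (a.val + 1) -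
      d.th (d.T w.1) ^ (a.val + 1)) * B a| ≤ δ * |d.th (d.T w.2) - d.th (d.T w.1)| := by
    have e1 := (norm_le_pi_norm _ i).trans h1
    rw [Real.norm_eq_abs] at e1
    have e2 := hgv w
    rw [e2] at e1
    exact e1
  have key := two_ref k₀ d.th φ (fun t => ⟨(hd.hth t).1, (hd.hth t).2.le⟩) B
    (fun j => d.T (v' j)) hs (d.T w.1) (d.T w.2) h0' h1'
  rw [gr_apply]
  have e1 : d.y₀ r (d.L ((v', w).1 0)) = y := by rw [hy]; show d.y₀ r (d.L (v' 0)) = _; rw [hL]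
  rw [e1]
  refine key.trans ?_
  exact mul_le_mul_of_nonneg_right hfin (abs_nonneg _)

end dat

section basic

variable {Ω Ω' T : Type} [Fintype Ω] [Fintype Ω']

omit [Fintype Ω'] in
/-- Gluing over labels which agree on the support. -/
theorem glue_congr_fst {p₁ : Ω → ℝ} {p₂ : Ω' → ℝ} {Z₁ Z₁' : Ω → T} {Z₂ : Ω' → T}
    (h₁ : ∀ ω, 0 ≤ p₁ ω) (h : ∀ ω, 0 < p₁ ω → Z₁ ω = Z₁' ω) :
    glue p₁ p₂ Z₁ Z₂ = glue p₁ p₂ Z₁' Z₂ := by
  classical
  funext w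
  have h2 : ∀ z, law p₁ Z₁ z = law p₁ Z₁' z := by
    intro z
    unfold law
    refine Finset.sum_congr rfl fun ω _ => ?_
    rcases (h₁ ω).eq_or_lt with h0 | h0
    · rw [← h0]
      simp
    · rw [h ω h0]
  unfold glue
  rcases (h₁ w.1).eq_or_lt with h0 | h0
  · rw [← h0]
    simp
  · rw [h w.1 h0, h2]

/-- The probability of an event of a gluing, in terms of the conditional probabilities. -/
theorem Pr_glue {p₁ : Ω → ℝ} {p₂ : Ω' → ℝ} {Z₁ : Ω → T} {Z₂ : Ω' → T}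
    (hZ : ∀ z, law p₁ Z₁ z = law p₂ Z₂ z) (F : Set Ω) (G : Ω → Set Ω') :
    Pr (glue p₁ p₂ Z₁ Z₂) {w | w.1 ∈ F ∧ w.2 ∈ G w.1} =
      Ex p₁ (fun x => Set.indicator F (fun x => Pr (cond p₂ Z₂ (Z₁ x)) (G x)) x) := by
  classical
  rw [Pool.KAF.Pr_eq, Fintype.sum_prod_type]
  unfold Ex
  refine Finset.sum_congr rfl fun x _ => ?_
  show _ = p₁ x * Set.indicator F (fun x => Pr (Pool.Agent.H49.Ent.cond p₂ Z₂ (Z₁ x)) (G x)) x
  by_cases hx : x ∈ F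
  · rw [Set.indicator_of_mem hx, Pool.KAF.Pr_eq, Finset.mul_sum]
    refine Finset.sum_congr rfl fun y _ => ?_
    by_cases hy : y ∈ G x
    · rw [if_pos (show ((x, y) : Ω × Ω') ∈ {w : Ω × Ω' | w.1 ∈ F ∧ w.2 ∈ G w.1} from ⟨hx, hy⟩),
        if_pos hy]
      unfold glue Pool.Agent.H49.Ent.cond
      simp only
      rw [hZ]
      by_cases h : Z₁ x = Z₂ y
      · rw [if_pos h, if_pos h.symm, mul_div_assoc]
      · rw [if_neg h, if_neg (Ne.symm h), mul_zero]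
    · rw [if_neg (show ((x, y) : Ω × Ω') ∉ {w : Ω × Ω' | w.1 ∈ F ∧ w.2 ∈ G w.1} from
        fun h => hy h.2), if_neg hy, mul_zero]
  · rw [Set.indicator_of_notMem hx, mul_zero]
    refine Finset.sum_eq_zero fun y _ => ?_
    rw [if_neg (show ((x, y) : Ω × Ω') ∉ {w : Ω × Ω' | w.1 ∈ F ∧ w.2 ∈ G w.1} from
      fun h => hx h.1)]

/-- Two copies are exchangeable. -/
theorem dbl_swap (p : Ω → ℝ) (Z : Ω → T) (E : Set (Ω × Ω)) :
    Pr (dbl p Z) {w | (w.2, w.1) ∈ E} = Pr (dbl p Z) E := by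
  classical
  rw [Pool.KAF.Pr_eq, Pool.KAF.Pr_eq]
  refine Fintype.sum_equiv (Equiv.prodComm Ω Ω) _ _ fun w => ?_
  obtain ⟨u, v⟩ := w
  have h1 : dbl p Z (v, u) = dbl p Z (u, v) := by
    unfold dbl glue
    simp only
    by_cases h : Z u = Z v
    · rw [if_pos h, if_pos h.symm, h, mul_comm (p v)]
    · rw [if_neg h, if_neg (Ne.symm h)]
  show (if (v, u) ∈ E then dbl p Z (u, v) else 0) = if (v, u) ∈ E then dbl p Z (v, u) else 0
  rw [h1]

/-- Half of the pairs are ordered. -/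
theorem half_le {p : Ω → ℝ} (hp : IsLaw p) (Z : Ω → T) (m : Ω → ℤ) (c : ℤ) :
    Pr p {v | m v < c} ≤ 2 * Pr (dbl p Z) {x | m x.2 < c ∧ m x.2 ≤ m x.1} := by
  classical
  have h0 : ∀ w, 0 ≤ dbl p Z w := fun w => glue_nonneg hp.nonneg hp.nonneg w
  have h1 : Pr (dbl p Z) {x | m x.2 < c} = Pr p {v | m v < c} :=
    Pr_marg (pr := fun x : Ω × Ω => x.2) (marg_snd hp.nonneg fun _ => rfl) {v | m v < c}
  have h2 : Pr (dbl p Z) {x | m x.2 < c} ≤ Pr (dbl p Z) ({x | m x.2 < c ∧ m x.2 ≤ m x.1} ∪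
      {x | m x.2 < c ∧ m x.1 < m x.2}) := by
    refine Pool.KAF.Pr_mono h0 fun x _ hx => ?_
    rcases le_or_gt (m x.2) (m x.1) with h | h
    · exact Or.inl ⟨hx, h⟩
    · exact Or.inr ⟨hx, h⟩
  have h3 : Pr (dbl p Z) {x | m x.2 < c ∧ m x.1 < m x.2} ≤
      Pr (dbl p Z) {x | m x.2 < c ∧ m x.2 ≤ m x.1} := by
    rw [← dbl_swap p Z {x | m x.2 < c ∧ m x.1 < m x.2}]
    refine Pool.KAF.Pr_mono h0 fun x _ hx => ?_
    have hx' : m x.1 < c ∧ m x.2 < m x.1 := hx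
    exact ⟨hx'.2.trans hx'.1, hx'.2.le⟩
  rw [← h1]
  have h4 := Pool.KAF.Pr_union_le h0 {x | m x.2 < c ∧ m x.2 ≤ m x.1}
    {x | m x.2 < c ∧ m x.1 < m x.2}
  linarith

end basic

section dat

variable {k n : ℕ} {I : Type} [Fintype I] (b : Bas k I) (d : LDat k n I)

/-- Two references of one line. -/
noncomputable def Q2 : (Fin (n + 1) → d.Om) × (Fin (n + 1) → d.Om) → ℝ :=
  dbl d.Qr (fun v => d.L (v 0))

/-- Two references and a pair of one line. -/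
noncomputable def Q6 (i : ℕ) :
    ((Fin (n + 1) → d.Om) × (Fin (n + 1) → d.Om)) × (d.Om × d.Om) → ℝ :=
  glue (Q2 d) (d.Qp i) (fun x => d.L (x.2 0)) (fun w => d.L w.1)

omit [Fintype I] in
theorem Q2_nonneg (hp : IsLaw d.P) (x) : 0 ≤ Q2 d x := by
  unfold Q2 dbl
  exact glue_nonneg (Qr_isLaw d hp).nonneg (Qr_isLaw d hp).nonneg x

omit [Fintype I] in
theorem Q2_fst (hp : IsLaw d.P) : Marg (Q2 d) d.Qr (fun x => x.1) := by
  unfold Q2 dbl
  exact marg_fst (Qr_isLaw d hp).nonneg fun _ => rfl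

omit [Fintype I] in
theorem Q2_snd (hp : IsLaw d.P) : Marg (Q2 d) d.Qr (fun x => x.2) := by
  unfold Q2 dbl
  exact marg_snd (Qr_isLaw d hp).nonneg fun _ => rfl

omit [Fintype I] in
theorem Q2_pos (hp : IsLaw d.P) {x} (h : 0 < Q2 d x) :
    0 < d.Qr x.1 ∧ 0 < d.Qr x.2 ∧ d.L (x.1 0) = d.L (x.2 0) := by
  unfold Q2 dbl at h
  exact (glue_pos_iff (Qr_isLaw d hp).nonneg (Qr_isLaw d hp).nonneg x).1 h

omit [Fintype I] in
theorem Q6_hZ (hp : IsLaw d.P) (i : ℕ) (z : d.Lam) :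
    law (Q2 d) (fun x => d.L (x.2 0)) z = law (d.Qp i) (fun w => d.L w.1) z := by
  rw [(Q2_snd d hp).law (fun v => d.L (v 0)) z, Q4_hZ d hp.nonneg i]

omit [Fintype I] in
theorem Q6_nonneg (hp : IsLaw d.P) (i : ℕ) (w) : 0 ≤ Q6 d i w :=
  glue_nonneg (Q2_nonneg d hp) (Qp_nonneg d hp.nonneg i) w

omit [Fintype I] in
/-- The second reference and the pair. -/
theorem Q6_snd (hp : IsLaw d.P) (i : ℕ) : Marg (Q6 d i) (d.Q4 i) (fun w => (w.1.2, w.2)) := by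
  unfold Q6 LDat.Q4
  exact Marg.glue (Z₁ := fun v : Fin (n + 1) → d.Om => d.L (v 0)) (Z₂ := fun w : d.Om × d.Om => d.L w.1)
    (Q2_snd d hp) (Marg.id (d.Qp i))

omit [Fintype I] in
/-- The first reference and the pair. -/
theorem Q6_fst (hp : IsLaw d.P) (i : ℕ) : Marg (Q6 d i) (d.Q4 i) (fun w => (w.1.1, w.2)) := by
  have h1 : Q6 d i = glue (Q2 d) (d.Qp i) (fun x => d.L (x.1 0)) (fun w => d.L w.1) :=
    glue_congr_fst (Q2_nonneg d hp) fun x hx => (Q2_pos d hp hx).2.2.symm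
  rw [h1]
  exact Marg.glue (Z₁ := fun v : Fin (n + 1) → d.Om => d.L (v 0)) (Z₂ := fun w => d.L w.1)
    (Q2_fst d hp) (Marg.id (d.Qp i))

/-- The first reference and two samples of the second one. -/
theorem Q2_two {A : ℕ} {c : ℝ} (hd : d.OK b A c) {j : Fin (n + 1)} (hj : 0 ≠ j) :
    Marg (Q2 d) (d.Q4 0) (fun x => (x.1, (x.2 0, x.2 j))) := by
  have h2 : Marg d.Qr (d.Qp 0) (fun v => (v 0, v j)) := by
    rw [Qr_eq, Qp0_eq b d hd]
    exact Pool.SLO.tup_two hd.law.nonneg d.L 0 j hj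
  exact Marg.glue (Z₁ := fun v : Fin (n + 1) → d.Om => d.L (v 0)) (Z₂ := fun w => d.L w.1)
    (Marg.id d.Qr) h2

end dat

theorem lam_thm : LAMStmt := by
  classical
  intro n u ε₁₀ hu hε₁₀
  set Cn : ℝ := 1 + n + (n + 1) ^ 2 with hCn
  have hCn0 : 0 < Cn := by positivity
  refine ⟨u * ε₁₀ / (64 * Cn), by positivity, ?_⟩
  intro k₀
  obtain ⟨k₅, hk₅⟩ : ∃ k₅ : ℕ, 1 + (n : ℝ) ^ 2 * ((n + 1) * 2 ^ ((k₀ + 1) * n)) ≤ 2 ^ k₅ := by
    obtain ⟨k₅, h⟩ := pow_unbounded_of_one_lt (1 + (n : ℝ) ^ 2 * ((n + 1) * 2 ^ ((k₀ + 1) * n)))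
      (by norm_num : (1 : ℝ) < 2)
    exact ⟨k₅, h.le⟩
  refine ⟨k₅, ?_⟩
  intro k I _ b d A ns m Λ c hd hns hAGR hTC _ hmax
  set ε : ℝ := u * ε₁₀ / (64 * Cn) with hε
  have hlaw := hd.law
  have hns0 : (0 : ℝ) < ns := by exact_mod_cast hns
  set F : Set ((Fin (n + 1) → d.Om) × (Fin (n + 1) → d.Om)) :=
    {x | m x.2 < 2 * ns ∧ m x.2 ≤ m x.1} with hF
  set far : (Fin (n + 1) → d.Om) → Set (d.Om × d.Om) := fun v =>
    {w | (2 : ℝ) ^ (-m v) * |d.ta w| < ‖d.gr b (8 * ns) (v, w)‖} with hfar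
  -- one scale
  have key : ∀ i < ns, Pr (Q6 d i) {w | w.1 ∈ F ∧ w.2 ∈ far w.1.2} ≤ Cn * ε := by
    intro i hi
    set bad : Set ((Fin (n + 1) → d.Om) × (d.Om × d.Om)) :=
      {u | (2 : ℝ) ^ (-(m u.1 + k₅)) * |d.ta u.2| <
        ‖fun j => d.gr b (8 * ns) u j - ∑ a, d.dt a u.2 * Λ u.1 a j‖} with hbad
    set E : Option (Option {j : Fin (n + 1) // 0 ≠ j}) →
        Set (((Fin (n + 1) → d.Om) × (Fin (n + 1) → d.Om)) × (d.Om × d.Om)) := fun x =>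
      match x with
      | none => {w | (w.1.1, w.2) ∈ bad}
      | some none => {w | w.1.2 ∈ {v | ¬ d.sep k₀ v}}
      | some (some j) => {w | (w.1.1, (w.1.2 0, w.1.2 j.1)) ∈ bad} with hE
    have h1 : Pr (Q6 d i) {w | w.1 ∈ F ∧ w.2 ∈ far w.1.2} ≤ Pr (Q6 d i) {w | ∃ x, w ∈ E x} := by
      refine Pool.KAF.Pr_mono (Q6_nonneg d hlaw i) fun w hw hfarw => ?_
      by_contra hcon
      have hcon' : ∀ x, w ∉ E x := fun x hx => hcon ⟨x, hx⟩
      obtain ⟨hw1, hw2, hw3⟩ :=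
        (glue_pos_iff (Q2_nonneg d hlaw) (Qp_nonneg d hlaw.nonneg i) w).1 hw
      obtain ⟨hv1, hv2, hv3⟩ := Q2_pos d hlaw hw1
      obtain ⟨⟨hm1, hm2⟩, hmem⟩ := hfarw
      have hmem' : (2 : ℝ) ^ (-m w.1.2) * |d.ta w.2| < ‖d.gr b (8 * ns) (w.1.2, w.2)‖ := hmem
      have e1 := hcon' none
      have e2 := hcon' (some none)
      have e3 : ∀ j : {j : Fin (n + 1) // 0 ≠ j}, w ∉ E (some (some j)) :=
        fun j => hcon' (some (some j))
      have hs : d.sep k₀ w.1.2 := by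
        by_contra h
        exact e2 h
      have h4 := gr_two b d hd (8 * ns) k₀ (m w.1.1) k₅ hk₅ (Λ w.1.1) w.1.1 w.1.2 w.2
        hv3.symm hs (fun j hj => by
          have := e3 ⟨j, hj⟩
          exact not_lt.mp this) (not_lt.mp e1)
      have h5 : (2 : ℝ) ^ (-m w.1.1) * |d.ta w.2| ≤ (2 : ℝ) ^ (-m w.1.2) * |d.ta w.2| := by
        refine mul_le_mul_of_nonneg_right ?_ (abs_nonneg _)
        exact zpow_le_zpow_right₀ (by norm_num) (by linarith)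
      exact absurd (h4.trans h5) (not_le.mpr hmem')
    refine h1.trans ((Pool.OCG.Dat.Pr_exists_le (Q6_nonneg d hlaw i) E).trans ?_)
    rw [Fintype.sum_option, Fintype.sum_option]
    have b1 : Pr (Q6 d i) (E none) ≤ ε := by
      have := Pr_marg (Q6_fst d hlaw i) bad
      exact this.le.trans (hAGR i hi)
    have b2 : Pr (Q6 d i) (E (some none)) ≤ (n + 1) ^ 2 * ε := by
      have e1 : Marg (Q6 d i) d.Qr (fun w => w.1.2) := (Q6_snd d hlaw i).comp (Q4_fst d hlaw i)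
      have := Pr_marg e1 {v | ¬ d.sep k₀ v}
      exact this.le.trans (sep_prob b d hd hTC)
    have b3 : ∀ j ∈ (univ : Finset {j : Fin (n + 1) // 0 ≠ j}),
        Pr (Q6 d i) (E (some (some j))) ≤ ε := by
      intro j _
      have e1 : Marg (Q6 d i) (d.Q4 0) (fun w => (w.1.1, (w.1.2 0, w.1.2 j.1))) :=
        (marg_fst (Q2_nonneg d hlaw) (Q6_hZ d hlaw i)).comp (Q2_two b d hd j.2)
      have := Pr_marg e1 bad
      exact this.le.trans (hAGR 0 hns)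
    have b4 : ∑ j : {j : Fin (n + 1) // 0 ≠ j}, Pr (Q6 d i) (E (some (some j))) ≤ n * ε := by
      refine (Finset.sum_le_sum b3).trans (le_of_eq ?_)
      rw [Finset.sum_const, nsmul_eq_mul, Finset.card_univ]
      have e1 : Fintype.card {j : Fin (n + 1) // 0 ≠ j} = n := by
        rw [Fintype.card_subtype_compl, Fintype.card_fin, Fintype.card_subtype_eq']
        rfl
      rw [e1]
    have e2 : Cn * ε = ε + ((n + 1) ^ 2 * ε + n * ε) := by rw [hCn]; ring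
    rw [e2]
    exact add_le_add b1 (add_le_add b2 b4)
  -- the sum over the scales
  have hsum : ∑ i ∈ range ns, Pr (Q6 d i) {w | w.1 ∈ F ∧ w.2 ∈ far w.1.2} ≤
      ns * (Cn * ε) := by
    refine (Finset.sum_le_sum fun i hi => key i (mem_range.1 hi)).trans (le_of_eq ?_)
    rw [Finset.sum_const, card_range, nsmul_eq_mul]
  have hfib : ∀ i, Pr (Q6 d i) {w | w.1 ∈ F ∧ w.2 ∈ far w.1.2} =
      Ex (Q2 d) (fun x => Set.indicator F (fun x => Pr (Pool.Agent.H49.Ent.cond (d.Qp i)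
        (fun w => d.L w.1) (d.L (x.2 0))) (far x.2)) x) := fun i =>
    Pr_glue (Q6_hZ d hlaw i) F (fun x => far x.2)
  have hlow : Pr (Q2 d) F * (u / 32 * ns) ≤
      ∑ i ∈ range ns, Pr (Q6 d i) {w | w.1 ∈ F ∧ w.2 ∈ far w.1.2} := by
    simp only [hfib]
    unfold Ex
    rw [Finset.sum_comm, Pool.KAF.Pr_eq, Finset.sum_mul]
    refine Finset.sum_le_sum fun x _ => ?_
    rw [← Finset.mul_sum]
    rcases (Q2_nonneg d hlaw x).eq_or_lt with h0 | h0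
    · rw [← h0]
      simp
    · by_cases hx : x ∈ F
      · rw [if_pos hx]
        simp only [Set.indicator_of_mem hx]
        refine mul_le_mul_of_nonneg_left ?_ h0.le
        exact (hmax x.2 (Q2_pos d hlaw h0).2.1 hx.1).le
      · rw [if_neg hx]
        simp only [Set.indicator_of_notMem hx]
        simp
  have hhalf : Pr d.Qr {v | m v < 2 * ns} ≤ 2 * Pr (Q2 d) F :=
    half_le (Qr_isLaw d hlaw) (fun v => d.L (v 0)) m (2 * ns)
  have h5 := hlow.trans hsum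
  have h6 : ns * (Cn * ε) = ε₁₀ / 2 * (u / 32 * ns) := by
    rw [hε]
    field_simp
    ring
  rw [h6] at h5
  have h7 := le_of_mul_le_mul_right h5 (by positivity)
  linarith

end Pool.L1
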