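import Pool.Agent.H48.M5.Spr
import Pool.Agent.H41.L1.LAM

/-!
# Row SPRF of the lemma L1: the tangential position is full given the reference
-/

set_option autoImplicit false

namespace Pool.L1

open Finset Real
open Pool.Agent.H49.Ent Pool.Agent.H32.Dense Pool.STK Pool.KAF Pool.M5 Pool.KVA

/-- The last digits of the position. -/
theorem CH_dig {Ω : Type} [Fintype Ω] {k : ℕ} {q : Ω → ℝ} (hq : IsLaw q) {X r : ℕ} (hr : r ≤ X)
    (y : Ω → Fin k → ℤ) : CH q y (fun ω j => ⌊(2 : ℝ) ^ r * ((y ω j : ℝ) / 2 ^ X)⌋) ≤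
      k * (((X : ℝ) - r) * Real.log 2) := by
  classical
  set y' : Ω → Fin k → ℤ := fun ω j => ⌊(2 : ℝ) ^ r * ((y ω j : ℝ) / 2 ^ X)⌋ with hy'
  have h3 : CH q y y' ≤ ∑ j : Fin k, CH q (fun ω => y ω j) y' := Pool.STK.Q22.CH_pi hq.nonneg y' k y
  have h4 : ∀ j : Fin k, CH q (fun ω => y ω j) y' ≤ ((X : ℝ) - r) * Real.log 2 := by
    intro j
    have h5 := CH_le_card hq.nonneg hq.sum_one (fun ω => y ω j) y'
      (fun v => Finset.Ico (2 ^ (X - r) * v j) (2 ^ (X - r) * (v j + 1))) (by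
        intro ω _
        have e1 := Int.floor_le ((2 : ℝ) ^ r * ((y ω j : ℝ) / 2 ^ X))
        have e2 := Int.lt_floor_add_one ((2 : ℝ) ^ r * ((y ω j : ℝ) / 2 ^ X))
        have e3 : (2 : ℝ) ^ (X - r) * ((2 : ℝ) ^ r * ((y ω j : ℝ) / 2 ^ X)) = y ω j := by
          rw [← mul_assoc, ← pow_add, Nat.sub_add_cancel hr]
          field_simp
        have hpos : (0 : ℝ) < 2 ^ (X - r) := by positivity
        rw [Finset.mem_Ico]
        constructor
        · have e4 := mul_le_mul_of_nonneg_left e1 hpos.le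
          rw [e3] at e4
          have e5 : (((2 : ℤ) ^ (X - r) * y' ω j : ℤ) : ℝ) ≤ ((y ω j : ℤ) : ℝ) := by
            push_cast
            exact e4
          exact Int.cast_le.1 e5
        · have e4 := mul_lt_mul_of_pos_left e2 hpos
          rw [e3] at e4
          have e5 : ((y ω j : ℤ) : ℝ) < (((2 : ℤ) ^ (X - r) * (y' ω j + 1) : ℤ) : ℝ) := by
            push_cast
            exact e4
          exact Int.cast_lt.1 e5)
    refine h5.trans ?_
    have h6 : ∀ ω, Real.log (((Finset.Ico (2 ^ (X - r) * y' ω j)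
        (2 ^ (X - r) * (y' ω j + 1))).card : ℕ) : ℝ) = ((X : ℝ) - r) * Real.log 2 := by
      intro ω
      rw [Int.card_Ico]
      have e5 : (2 ^ (X - r) * (y' ω j + 1) - 2 ^ (X - r) * y' ω j : ℤ) =
          ((2 ^ (X - r) : ℕ) : ℤ) := by push_cast; ring
      rw [e5, Int.toNat_natCast]
      push_cast
      rw [Real.log_pow, Nat.cast_sub hr]
    simp only [h6]
    rw [Ex_const hq.sum_one]
  refine h3.trans ((Finset.sum_le_sum fun j _ => h4 j).trans (le_of_eq ?_))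
  rw [Finset.sum_const, nsmul_eq_mul, Finset.card_univ, Fintype.card_fin]

/-- The number of the first digits. -/
theorem CH_first {Ω S : Type} [Fintype Ω] {k : ℕ} {q : Ω → ℝ} (hq : IsLaw q) (r : ℕ)
    (y : Ω → Fin k → ℝ) (hy : ∀ ω j, |y ω j| ≤ 1) (x : Ω → S) :
    CH q (Pool.SLO.Yd y r) x ≤ k * (((r : ℝ) + 2) * Real.log 2) := by
  classical
  refine (Pool.STK.Q22.CH_pi hq.nonneg x k (Pool.SLO.Yd y r)).trans ?_
  have h2 : ∀ j : Fin k, CH q (fun ω => Pool.SLO.Yd y r ω j) x ≤ ((r : ℝ) + 2) * Real.log 2 := by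
    intro j
    refine (CH_le_card hq.nonneg hq.sum_one (fun ω => Pool.SLO.Yd y r ω j) x
      (fun _ => Finset.Icc (-2 ^ r) (2 ^ r)) (by
        intro ω _
        have e1 := abs_le.1 (hy ω j)
        have hpos : (0 : ℝ) < 2 ^ r := by positivity
        rw [Finset.mem_Icc]
        constructor
        · refine Int.le_floor.2 ?_
          push_cast
          nlinarith
        · have e2 : (⌊(2 : ℝ) ^ r * y ω j⌋ : ℝ) ≤ (2 : ℝ) ^ r * y ω j := Int.floor_le _
          have e3 : (⌊(2 : ℝ) ^ r * y ω j⌋ : ℝ) ≤ ((2 ^ r : ℤ) : ℝ) := by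
            push_cast
            nlinarith
          exact Int.cast_le.1 e3)).trans ?_
    rw [Ex_const hq.sum_one]
    have e1 : (((Finset.Icc (-2 ^ r) (2 ^ r : ℤ)).card : ℕ) : ℝ) ≤ 2 ^ (r + 2) := by
      rw [Int.card_Icc]
      have e2 : (2 ^ r + 1 - -2 ^ r : ℤ) = ((2 * 2 ^ r + 1 : ℕ) : ℤ) := by
        push_cast; ring
      rw [e2, Int.toNat_natCast]
      have e3 : 2 * 2 ^ r + 1 ≤ 2 ^ (r + 2) := by
        rw [pow_add _ r 2]
        have : 1 ≤ 2 ^ r := Nat.one_le_two_pow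
        omega
      exact_mod_cast e3
    have e2 : (0 : ℝ) < (((Finset.Icc (-2 ^ r) (2 ^ r : ℤ)).card : ℕ) : ℝ) := by
      have : (0 : ℤ) ∈ Finset.Icc (-2 ^ r) (2 ^ r : ℤ) := by
        rw [Finset.mem_Icc]
        constructor
        · have : (0 : ℤ) < 2 ^ r := by positivity
          linarith
        · positivity
      exact_mod_cast Finset.card_pos.2 ⟨_, this⟩
    have e3 := Real.log_le_log e2 e1
    rw [Real.log_pow] at e3
    push_cast at e3
    exact e3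
  refine (Finset.sum_le_sum fun j _ => h2 j).trans (le_of_eq ?_)
  rw [Finset.sum_const, nsmul_eq_mul, Finset.card_univ, Fintype.card_fin]

/-- The first digits determine fewer first digits. -/
theorem floor_lower {r M : ℕ} (h : r ≤ M) {x x' : ℝ}
    (h' : ⌊(2 : ℝ) ^ M * x⌋ = ⌊(2 : ℝ) ^ M * x'⌋) : ⌊(2 : ℝ) ^ r * x⌋ = ⌊(2 : ℝ) ^ r * x'⌋ := by
  have h1 : ∀ z : ℝ, ⌊(2 : ℝ) ^ r * z⌋ = ⌊(2 : ℝ) ^ M * z⌋ / ((2 ^ (M - r) : ℕ) : ℤ) := by
    intro z
    rw [← Int.floor_div_natCast]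
    congr 1
    have e1 : (2 : ℝ) ^ M = 2 ^ r * 2 ^ (M - r) := by
      rw [← pow_add, Nat.add_sub_cancel' h]
    rw [e1]
    push_cast
    field_simp
  rw [h1, h1, h']

theorem sprf_thm : SPRFStmt := by
  classical
  intro k n
  refine ⟨2 * (n + 3) + 2 * k, by positivity, ?_⟩
  intro I _ b d m A ns h j₀ ι ε₀ c hd hS h1 h3 r M hrM hMX
  set Q := d.Qr with hQdef
  have hQ : IsLaw Q := Qr_isLaw d hd.law
  have hl2 : 0 < Real.log 2 := Real.log_pos (by norm_num)
  have hl21 : (1 : ℝ) / 2 ≤ Real.log 2 := by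
    have := Real.log_two_gt_d9
    linarith
  -- the variables
  set yI : (Fin (n + 1) → d.Om) → Fin k → ℤ := fun v => d.y (d.L (v 0)) with hyI
  set Lv : (Fin (n + 1) → d.Om) → d.Lam := fun v => d.L (v 0) with hLv
  set Tv : (Fin (n + 1) → d.Om) → (Fin (n + 1) → d.Tau) := fun v j => d.T (v j) with hTv
  have hM : Marg Q d.P (fun v => v 0) := by
    rw [hQdef, Qr_eq]
    exact Pool.SLO.tup_marg hd.law.nonneg d.L n 0
  -- the entropy of the position
  have e1 : (k - ι) * d.X * Real.log 2 ≤ H Q yI := by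
    have e2 := Pool.OCG.H_eq_CH_unit hQ yI
    have e3 := Pool.OCG.H_eq_CH_unit hd.law (fun ω => d.y (d.L ω))
    have e4 : CH Q yI (fun _ => ()) = CH d.P (fun ω => d.y (d.L ω)) (fun _ => ()) :=
      hM.CH (fun ω => d.y (d.L ω)) (fun _ => ())
    rw [e2, e4, ← e3]
    exact h3
  -- the times and the line
  have e2 : MI Q Lv Tv (fun _ => ()) ≤ (n + 1) * (ι * d.X) := by
    have e3 := Pool.SLO.tup_mi hd.law d.L d.T n
    rw [← Qr_eq] at e3
    have e4 : MI d.P d.L d.T (fun _ => ()) = MI d.P d.T d.L (fun _ => ()) :=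
      Pool.OC.mi_comm _ _ _ hd.law.nonneg
    rw [e4] at e3
    refine e3.trans ?_
    exact mul_le_mul_of_nonneg_left h1.1 (by positivity)
  have e3 : MI Q yI Tv (fun _ => ()) ≤ MI Q Lv Tv (fun _ => ()) := by
    have e4 := submod hQ.nonneg (X := Lv) (Y := fun v => (yI v, Tv v)) (Z := yI)
      (W := fun v => (Lv v, Tv v)) (fun v v' _ _ h => by
        show d.y (d.L (v 0)) = d.y (d.L (v' 0))
        have : d.L (v 0) = d.L (v' 0) := h
        rw [this]) (fun v v' _ _ h => (Prod.ext_iff.1 h).1) (fun v v' _ _ h => by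
        simp only [Prod.mk.injEq] at h ⊢
        exact ⟨h.1, h.2.2⟩)
    unfold MI
    rw [← Pool.OCG.H_eq_CH_unit hQ, ← Pool.OCG.H_eq_CH_unit hQ, ← Pool.OCG.H_eq_CH_unit hQ,
      ← Pool.OCG.H_eq_CH_unit hQ, ← Pool.OCG.H_eq_CH_unit hQ]
    linarith
  have e4 : H Q yI - (n + 1) * (ι * d.X) ≤ CH Q yI Tv := by
    have e5 := e3.trans e2
    unfold MI at e5
    rw [← Pool.OCG.H_eq_CH_unit hQ, ← Pool.OCG.H_eq_CH_unit hQ, ← Pool.OCG.H_eq_CH_unit hQ] at e5
    unfold CH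
    linarith
  -- the label
  have e5 : CH Q yI Tv - Real.log (6 * ns + 1) ≤ CH Q yI (d.lb m) := by
    have e6 : CH Q m Tv ≤ Real.log (6 * ns + 1) := by
      refine (CH_le_card hQ.nonneg hQ.sum_one m Tv (fun _ => Finset.Icc (-(4 * ns : ℤ)) (2 * ns))
        (fun v _ => Finset.mem_Icc.2 ⟨hS.m1 v, hS.m2 v⟩)).trans ?_
      rw [Ex_const hQ.sum_one, Int.card_Icc]
      have e7 : (2 * (ns : ℤ) + 1 - -(4 * ns)) = ((6 * ns + 1 : ℕ) : ℤ) := by push_cast; ring
      rw [e7, Int.toNat_natCast]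
      push_cast
      exact le_rfl
    have e7 := CH_chain hQ.nonneg yI m Tv
    have e8 : CH Q yI (fun v => (m v, Tv v)) = CH Q yI (d.lb m) := by
      refine CH_congr hQ.nonneg (fun v v' _ _ h => (Prod.ext_iff.1 h).1)
        (fun v v' _ _ h => (Prod.ext_iff.1 h).1) (fun v v' _ _ h => ?_) (fun v v' _ _ h => ?_)
      · unfold LDat.lb
        simp only [Prod.mk.injEq] at h ⊢
        exact ⟨h.2, h.1⟩
      · unfold LDat.lb at h
        simp only [Prod.mk.injEq] at h ⊢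
        exact ⟨h.2, h.1⟩
    have e9 : CH Q yI Tv ≤ CH Q (fun v => (yI v, m v)) Tv :=
      CH_mono_left hQ.nonneg fun v v' _ _ h => by
        simp only [Prod.mk.injEq] at h
        exact h.1.1
    rw [e7, e8] at e9
    linarith
  -- the last digits
  have e6 : CH Q yI (d.lb m) ≤ CH Q (Pool.SLO.Yd d.yv M) (d.lb m) +
      k * (((d.X : ℝ) - M) * Real.log 2) := by
    have e7 := CH_le_add hQ.nonneg yI (Pool.SLO.Yd d.yv M) (d.lb m)
    have e8 : CH Q yI (fun v => (Pool.SLO.Yd d.yv M v, d.lb m v)) ≤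
        CH Q yI (Pool.SLO.Yd d.yv M) :=
      CH_mono_cond hQ.nonneg fun v v' _ _ h => (Prod.ext_iff.1 h).1
    have e9 : CH Q yI (Pool.SLO.Yd d.yv M) ≤ k * (((d.X : ℝ) - M) * Real.log 2) :=
      CH_dig hQ hMX yI
    linarith
  -- the first digits
  have e7 : CH Q (Pool.SLO.Yd d.yv M) (d.lb m) ≤ CH Q (Pool.SLO.Yd d.yv r) (d.lb m) +
      CH Q (Pool.SLO.Yd d.yv M) (fun v => (d.lb m v, Pool.SLO.Yd d.yv r v)) := by
    have e8 := CH_le_add hQ.nonneg (Pool.SLO.Yd d.yv M) (Pool.SLO.Yd d.yv r) (d.lb m)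
    have e9 : CH Q (Pool.SLO.Yd d.yv M) (fun v => (Pool.SLO.Yd d.yv r v, d.lb m v)) =
        CH Q (Pool.SLO.Yd d.yv M) (fun v => (d.lb m v, Pool.SLO.Yd d.yv r v)) := by
      refine CH_congr hQ.nonneg (fun v v' _ _ h => (Prod.ext_iff.1 h).1)
        (fun v v' _ _ h => (Prod.ext_iff.1 h).1) (fun v v' _ _ h => ?_) (fun v v' _ _ h => ?_)
      · simp only [Prod.mk.injEq] at h ⊢
        exact ⟨h.2, h.1⟩
      · simp only [Prod.mk.injEq] at h ⊢
        exact ⟨h.2, h.1⟩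
    rw [e9] at e8
    exact e8
  have e8 : CH Q (Pool.SLO.Yd d.yv r) (d.lb m) ≤ k * (((r : ℝ) + 2) * Real.log 2) :=
    CH_first hQ r d.yv (fun v j => hd.hy (d.L (v 0)) j) (d.lb m)
  have hι : 0 ≤ ι * d.X := by
    have e9 : 0 ≤ MI d.P d.T d.L (fun _ => ()) := by
      have e10 := submod hd.law.nonneg (X := fun ω => (d.T ω, ())) (Y := fun ω => (d.L ω, ()))
        (Z := fun _ => ()) (W := fun ω => ((d.T ω, d.L ω), ())) (fun _ _ _ _ _ => rfl)
        (fun _ _ _ _ _ => rfl) (fun _ _ _ _ h => by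
          simp only [Prod.mk.injEq] at h ⊢
          exact ⟨⟨h.1.1, h.2.1⟩, trivial⟩)
      unfold MI CH
      linarith
    exact e9.trans h1.1
  have hlog : 0 ≤ Real.log (6 * ns + 1) := Real.log_nonneg (by
    have : (0 : ℝ) ≤ ns := Nat.cast_nonneg ns
    linarith)
  have hk0 : (0 : ℝ) ≤ k := Nat.cast_nonneg k
  have hn0 : (0 : ℝ) ≤ n := Nat.cast_nonneg n
  -- the constants
  have f1 : (n + 1) * (ι * d.X) ≤ (2 * (n + 1)) * (ι * d.X) * Real.log 2 := by
    have : 0 ≤ (n + 1) * (ι * d.X) * (2 * Real.log 2 - 1) := by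
      refine mul_nonneg (mul_nonneg (by linarith) hι) (by linarith)
    nlinarith
  have f2 : Real.log (6 * ns + 1) ≤ 2 * Real.log (6 * ns + 1) * Real.log 2 := by
    have : 0 ≤ Real.log (6 * ns + 1) * (2 * Real.log 2 - 1) := mul_nonneg hlog (by linarith)
    nlinarith
  have f3 : (2 * ((n : ℝ) + 3) + 2 * k) * (ι * d.X + Real.log (6 * ns + 1) + 1) ≥
      2 * (n + 1) * (ι * d.X) + ι * d.X + 2 * Real.log (6 * ns + 1) + 2 * k := by
    have g1 : 0 ≤ (3 + 2 * (k : ℝ)) * (ι * d.X) := mul_nonneg (by linarith) hι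
    have g2 : 0 ≤ (2 * (n : ℝ) + 4 + 2 * k) * Real.log (6 * ns + 1) :=
      mul_nonneg (by linarith) hlog
    nlinarith
  have f4 := mul_le_mul_of_nonneg_right f3 hl2.le
  nlinarith [e1, e4, e5, e6, e7, e8, f1, f2, f4]

end Pool.L1
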