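import Pool.Agent.H39.SLP.UN2

/-!
# Remez inequality for a random position with almost full entropy

`y` is a random vector of integers (units `2 ^ (-X)`) with almost full entropy. A polynomial which
is small at `y / 2 ^ X` with probability at least one half is small on the cube, with a loss
`exp (C e)`, `e` the deficit.
-/

set_option autoImplicit false

namespace Pool.L1

open Finset Real
open Pool.Agent.H49.Ent Pool.Agent.H32.Dense Pool.STK Pool.KAF Pool.KAL

/-- Affine substitution in every variable. -/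
noncomputable def aff {k : ℕ} (a b : ℝ) (P : MvPolynomial (Fin k) ℝ) : MvPolynomial (Fin k) ℝ :=
  MvPolynomial.bind₁ (fun i => MvPolynomial.C a * MvPolynomial.X i + MvPolynomial.C b) P

theorem eval_aff {k : ℕ} (a b : ℝ) (P : MvPolynomial (Fin k) ℝ) (x : Fin k → ℝ) :
    MvPolynomial.eval x (aff a b P) = MvPolynomial.eval (fun i => a * x i + b) P := by
  unfold aff
  rw [← MvPolynomial.coe_aeval_eq_eval, ← MvPolynomial.coe_aeval_eq_eval]
  rw [RingHom.coe_coe, RingHom.coe_coe, MvPolynomial.aeval_bind₁]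
  congr 1
  congr 1
  funext i
  simp

theorem degreeOf_aff {k : ℕ} (a b : ℝ) (P : MvPolynomial (Fin k) ℝ) (j : Fin k) :
    (aff a b P).degreeOf j ≤ P.degreeOf j := by
  classical
  unfold aff
  conv_lhs => rw [P.as_sum]
  rw [map_sum]
  refine (MvPolynomial.degreeOf_sum_le j _ _).trans (Finset.sup_le fun s hs => ?_)
  rw [MvPolynomial.bind₁_monomial]
  refine (MvPolynomial.degreeOf_mul_le _ _ _).trans ?_
  rw [MvPolynomial.degreeOf_C, zero_add]
  refine (MvPolynomial.degreeOf_prod_le j _ _).trans ?_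
  have h1 : ∀ l ∈ s.support, MvPolynomial.degreeOf j ((MvPolynomial.C a * MvPolynomial.X l +
      MvPolynomial.C b : MvPolynomial (Fin k) ℝ) ^ s l) ≤ if l = j then s l else 0 := by
    intro l _
    refine (MvPolynomial.degreeOf_pow_le _ _ _).trans ?_
    by_cases hl : l = j
    · subst hl
      rw [if_pos rfl]
      have h2 : MvPolynomial.degreeOf l (MvPolynomial.C a * MvPolynomial.X l +
          MvPolynomial.C b : MvPolynomial (Fin k) ℝ) ≤ 1 := by
        refine (MvPolynomial.degreeOf_add_le _ _ _).trans (max_le ?_ ?_)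
        · refine (MvPolynomial.degreeOf_mul_le _ _ _).trans ?_
          rw [MvPolynomial.degreeOf_C, zero_add, MvPolynomial.degreeOf_X, if_pos rfl]
        · rw [MvPolynomial.degreeOf_C]
          exact Nat.zero_le _
      calc s l * _ ≤ s l * 1 := Nat.mul_le_mul_left _ h2
        _ = s l := Nat.mul_one _
    · rw [if_neg hl]
      have h2 : MvPolynomial.degreeOf j (MvPolynomial.C a * MvPolynomial.X l +
          MvPolynomial.C b : MvPolynomial (Fin k) ℝ) ≤ 0 := by
        refine (MvPolynomial.degreeOf_add_le _ _ _).trans (max_le ?_ ?_)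
        · refine (MvPolynomial.degreeOf_mul_le _ _ _).trans ?_
          rw [MvPolynomial.degreeOf_C, zero_add, MvPolynomial.degreeOf_X,
            if_neg (fun h => hl h.symm)]
        · rw [MvPolynomial.degreeOf_C]
      calc s l * _ ≤ s l * 0 := Nat.mul_le_mul_left _ h2
        _ = 0 := Nat.mul_zero _
  refine (Finset.sum_le_sum h1).trans ?_
  rw [Finset.sum_ite_eq']
  split_ifs
  · exact MvPolynomial.monomial_le_degreeOf j hs
  · exact Nat.zero_le _

/-- **Remez inequality for a random position.** -/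
theorem rem_full (k K A : ℕ) : ∃ C : ℝ, 1 ≤ C ∧ ∀ (Ω : Type) [Fintype Ω] (q : Ω → ℝ) (X : ℕ)
    (y : Ω → Fin k → ℤ) (P : MvPolynomial (Fin k) ℝ) (e M : ℝ) (G : Set Ω), IsLaw q →
    (∀ i, P.degreeOf i ≤ K) → 0 ≤ e → 0 ≤ M →
    (∀ ω, 0 < q ω → ∀ j, |((y ω j : ℤ) : ℝ)| ≤ 2 ^ A * 2 ^ X) →
    k * (X * Real.log 2) - e ≤ H q y → C * Real.exp (C * e) ≤ 2 ^ X → 1 / 2 ≤ Pr q G →
    (∀ ω ∈ G, 0 < q ω → |MvPolynomial.eval (fun j => ((y ω j : ℤ) : ℝ) / 2 ^ X) P| ≤ M) →
    ∀ z : Fin k → ℝ, (∀ i, |z i| ≤ 2 ^ A) → |MvPolynomial.eval z P| ≤ C * Real.exp (C * e) * M := by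
  classical
  obtain ⟨Cr, hCr1, hCr⟩ := rmn_thm rmg_thm k K
  have hl2 : 0 < Real.log 2 := Real.log_pos (by norm_num)
  have hCr1' : (1 : ℝ) ≤ Cr := by exact_mod_cast hCr1
  set c₀ : ℝ := 2 * (k * (A + 2) + 1) * Real.log 2 with hc₀
  have hc₀0 : 0 ≤ c₀ := by positivity
  set C : ℝ := Cr * Real.exp (Cr * c₀) + 2 * Cr with hC
  have hC2 : 2 * (Cr : ℝ) ≤ C := by
    have : 0 ≤ Cr * Real.exp (Cr * c₀) := by positivity
    linarith only [this]
  have hC3 : Cr * Real.exp (Cr * c₀) ≤ C := by linarith only [hCr1']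
  refine ⟨C, by linarith, ?_⟩
  intro Ω _ q X y P e M G hq hP he hM hy hH hsz hG hsm z hz
  set N : ℕ := 2 ^ (A + X + 2) with hN
  have hNpos : 0 < N := by positivity
  have : NeZero N := ⟨hNpos.ne'⟩
  set s₀ : ℤ := 2 ^ (A + X) with hs₀
  have hrange : ∀ ω, 0 < q ω → ∀ j, 0 ≤ y ω j + s₀ ∧ (y ω j + s₀).toNat < N := by
    intro ω hω j
    have h1 := abs_le.1 (hy ω hω j)
    have h2 : ((s₀ : ℤ) : ℝ) = 2 ^ A * 2 ^ X := by rw [hs₀]; push_cast; rw [pow_add]
    have h3 : (0 : ℝ) ≤ ((y ω j + s₀ : ℤ) : ℝ) := by push_cast [h2]; linarith only [h1]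
    have h4 : 0 ≤ y ω j + s₀ := by exact_mod_cast h3
    refine ⟨h4, ?_⟩
    have h5 : ((y ω j + s₀ : ℤ) : ℝ) < ((N : ℤ) : ℝ) := by
      have : ((N : ℤ) : ℝ) = 4 * (2 ^ A * 2 ^ X) := by rw [hN]; push_cast; ring
      rw [this]
      push_cast [h2]
      have : (0 : ℝ) < 2 ^ A * 2 ^ X := by positivity
      linarith only [h1, this]
    have h6 : y ω j + s₀ < (N : ℤ) := by exact_mod_cast h5
    omega
  set y' : Ω → Fin k → Fin N := fun ω j => Fin.ofNat N (y ω j + s₀).toNat with hy'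
  have hval : ∀ ω, 0 < q ω → ∀ j, ((y' ω j : ℕ) : ℝ) = (y ω j : ℝ) + s₀ := by
    intro ω hω j
    obtain ⟨h1, h2⟩ := hrange ω hω j
    have h3 : (y' ω j : ℕ) = (y ω j + s₀).toNat := by
      simp only [hy', Fin.ofNat]
      exact Nat.mod_eq_of_lt h2
    rw [h3]
    have h4 : (((y ω j + s₀).toNat : ℕ) : ℤ) = y ω j + s₀ := Int.toNat_of_nonneg h1
    have h5 : ((((y ω j + s₀).toNat : ℕ) : ℤ) : ℝ) = ((y ω j + s₀ : ℤ) : ℝ) := by rw [h4]
    push_cast at h5 ⊢
    exact h5
  have hHH : H q y ≤ H q y' := by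
    refine H_mono hq.nonneg ?_
    intro ω ω' h1 h2 h
    funext j
    have e1 := hval ω h1 j
    have e2 := hval ω' h2 j
    rw [h] at e1
    have : ((y ω j : ℤ) : ℝ) = y ω' j := by linarith only [e1, e2]
    exact_mod_cast this
  set Aset : Finset (Fin k → Fin N) := (univ.filter fun ω => ω ∈ G ∧ 0 < q ω).image y' with hAset
  have hmem : ∀ ω ∈ G, 0 < q ω → y' ω ∈ Aset := fun ω hω hpω => by
    rw [hAset, Finset.mem_image]
    exact ⟨ω, Finset.mem_filter.mpr ⟨Finset.mem_univ _, hω, hpω⟩, rfl⟩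
  set ρ : ℝ := Real.exp (-(2 * e + c₀)) with hρ
  have hρ0 : 0 < ρ := Real.exp_pos _
  have hρ1 : ρ ≤ 1 := by rw [hρ]; exact Real.exp_le_one_iff.2 (by linarith only [hc₀0, he])
  have hlogN : Real.log N = (A + X + 2) * Real.log 2 := by
    rw [hN]
    push_cast
    rw [Real.log_pow]
    push_cast
    ring
  have hAc : 0 < Aset.card := by
    obtain ⟨ω₀, h0, h0'⟩ : ∃ ω, ω ∈ G ∧ 0 < q ω := by
      by_contra hcon
      push Not at hcon
      have : Pr q G = 0 := by
        unfold Pr law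
        refine Finset.sum_eq_zero fun ω _ => ?_
        split_ifs with h
        · exact le_antisymm (hcon ω (of_eq_true h)) (hq.nonneg ω)
        · rfl
      rw [this] at hG
      norm_num at hG
    exact Finset.card_pos.mpr ⟨_, hmem ω₀ h0 h0'⟩
  have hAr : (0 : ℝ) < Aset.card := by exact_mod_cast hAc
  have hcount : ρ * (N : ℝ) ^ k ≤ Aset.card := by
    have h1 := Pool.Agent.H39.SLP.H_le_half hq y' Aset G hG hmem
    have h2 : Real.log (Fintype.card (Fin k → Fin N)) = k * Real.log N := by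
      rw [Fintype.card_fun, Fintype.card_fin, Fintype.card_fin]
      push_cast
      rw [Real.log_pow]
    rw [h2] at h1
    have h3 : k * Real.log N - (2 * e + c₀) ≤ Real.log Aset.card := by
      rw [hlogN] at h1 ⊢
      have h4 : (k : ℝ) * ((A + X + 2) * Real.log 2) =
          k * (X * Real.log 2) + k * ((A + 2) * Real.log 2) := by ring
      have h5 : c₀ = 2 * (k * ((A + 2) * Real.log 2)) + 2 * Real.log 2 := by rw [hc₀]; ring
      rw [h4] at h1 ⊢
      linarith only [hH, hHH, h1]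
    have h6 : (N : ℝ) ^ k = Real.exp (k * Real.log N) := by
      rw [Real.exp_nat_mul, Real.exp_log (by exact_mod_cast hNpos)]
    rw [hρ, h6, ← Real.exp_add, ← Real.exp_log hAr]
    exact Real.exp_le_exp.mpr (by linarith only [h3])
  -- the polynomial on the grid
  set P' := aff (1 / 2 ^ X : ℝ) (-(2 ^ A : ℝ)) P with hP'
  have hP'deg : ∀ i, P'.degreeOf i ≤ K := fun i => (degreeOf_aff _ _ P i).trans (hP i)
  have hs₀' : ((s₀ : ℤ) : ℝ) = 2 ^ A * 2 ^ X := by rw [hs₀]; push_cast; rw [pow_add]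
  have hev : ∀ x : Fin k → ℝ, MvPolynomial.eval (fun i => 2 ^ X * x i + 2 ^ A * 2 ^ X) P' =
      MvPolynomial.eval x P := by
    intro x
    rw [hP', eval_aff]
    congr 1
    congr 1
    funext i
    have : (2 : ℝ) ^ X ≠ 0 := by positivity
    field_simp
    ring
  have hsmall : ∀ x ∈ Aset, |MvPolynomial.eval (fun i => ((x i : ℕ) : ℝ)) P'| ≤ M := by
    intro x hx
    rw [hAset, Finset.mem_image] at hx
    obtain ⟨ω, hω, rfl⟩ := hx
    rw [Finset.mem_filter] at hω
    have h1 := hsm ω hω.2.1 hω.2.2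
    rw [← hev] at h1
    have h2 : (fun i => ((y' ω i : ℕ) : ℝ)) =
        fun i => 2 ^ X * (((y ω i : ℤ) : ℝ) / 2 ^ X) + 2 ^ A * 2 ^ X := by
      funext i
      rw [hval ω hω.2.2 i, hs₀']
      have : (2 : ℝ) ^ X ≠ 0 := by positivity
      field_simp
    rw [h2]
    exact h1
  have hpow : (1 / ρ) ^ Cr = Real.exp (Cr * (2 * e + c₀)) := by
    rw [hρ, Real.exp_neg, one_div, inv_inv, ← Real.exp_nat_mul]
  have hbig : Cr * Real.exp (Cr * (2 * e + c₀)) ≤ C * Real.exp (C * e) := by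
    have h1 : Cr * Real.exp (Cr * (2 * e + c₀)) =
        Cr * Real.exp (Cr * c₀) * Real.exp (2 * Cr * e) := by
      rw [mul_assoc, ← Real.exp_add]
      congr 2
      ring
    rw [h1]
    refine mul_le_mul hC3 (Real.exp_le_exp.mpr ?_) (Real.exp_pos _).le (by linarith only [hCr1', hC2])
    exact mul_le_mul_of_nonneg_right hC2 he
  have hsize : (Cr : ℝ) ≤ ρ ^ Cr * N := by
    have h1 : ρ ^ Cr * Real.exp (Cr * (2 * e + c₀)) = 1 := by
      rw [hρ, ← Real.exp_nat_mul, ← Real.exp_add]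
      rw [show (Cr : ℝ) * -(2 * e + c₀) + Cr * (2 * e + c₀) = 0 by ring, Real.exp_zero]
    have h2 : (2 : ℝ) ^ X ≤ N := by
      rw [hN]
      push_cast
      exact pow_le_pow_right₀ (by norm_num) (by omega)
    have h3 : Cr * Real.exp (Cr * (2 * e + c₀)) ≤ N := hbig.trans (hsz.trans h2)
    have h4 := mul_le_mul_of_nonneg_left h3 (pow_pos hρ0 Cr).le
    calc (Cr : ℝ) = Cr * (ρ ^ Cr * Real.exp (Cr * (2 * e + c₀))) := by rw [h1, mul_one]
      _ = ρ ^ Cr * (Cr * Real.exp (Cr * (2 * e + c₀))) := by ring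
      _ ≤ _ := h4
  have hfin := hCr N P' ρ 1 M hP'deg hρ0 hρ1 hsize le_rfl hM
    (hcount.trans (by
      have : Aset ⊆ univ.filter fun x : Fin k → Fin N =>
          |MvPolynomial.eval (fun i => ((x i : ℕ) : ℝ)) P'| ≤ M := fun x hx => by
        rw [Finset.mem_filter]
        exact ⟨Finset.mem_univ _, hsmall x hx⟩
      exact_mod_cast Finset.card_le_card this))
    (fun i => 2 ^ X * z i + 2 ^ A * 2 ^ X) (by
      intro i
      have h1 := abs_le.1 (hz i)
      have h2 : (N : ℝ) = 4 * (2 ^ A * 2 ^ X) := by rw [hN]; push_cast; ring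
      rw [one_mul, h2, abs_le]
      have h3 : (0 : ℝ) < 2 ^ X := by positivity
      have h4 : (0 : ℝ) < 2 ^ A * 2 ^ X := by positivity
      constructor <;> nlinarith only [h4, h1, h3])
  rw [hev, hpow] at hfin
  refine hfin.trans ?_
  exact mul_le_mul_of_nonneg_right hbig hM

/-- The same for a sum of monomials, in terms of the coefficients. -/
theorem rem_mon (k K : ℕ) : ∃ C : ℝ, 1 ≤ C ∧ ∀ (Ω ι : Type) [Fintype Ω] [Fintype ι] (q : Ω → ℝ)
    (X : ℕ) (y : Ω → Fin k → ℤ) (al : ι → Fin k → ℕ) (c : ι → ℝ) (e M : ℝ) (G : Set Ω), IsLaw q →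
    Function.Injective al → (∀ i, ∑ l, al i l ≤ K) → 0 ≤ e → 0 ≤ M →
    (∀ ω, 0 < q ω → ∀ j, |((y ω j : ℤ) : ℝ)| ≤ 2 ^ X) →
    k * (X * Real.log 2) - e ≤ H q y → C * Real.exp (C * e) ≤ 2 ^ X → 1 / 2 ≤ Pr q G →
    (∀ ω ∈ G, 0 < q ω →
      |∑ i, c i * Pool.SLP.mon (al i) (fun j => ((y ω j : ℤ) : ℝ) / 2 ^ X)| ≤ M) →
    ∀ i, |c i| ≤ C * Real.exp (C * e) * M := by
  obtain ⟨C₁, hC₁, h₁⟩ := rem_full k K 0
  obtain ⟨A, hA, h₂⟩ := Pool.Agent.H39.SLP.coef_bd k K
  refine ⟨A * C₁, one_le_mul_of_one_le_of_one_le hA hC₁, ?_⟩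
  intro Ω ι _ _ q X y al c e M G hq hinj hal he hM hy hH hsz hG hsm i
  have hCle : C₁ ≤ A * C₁ := by nlinarith only [hA, hC₁]
  have hexp : Real.exp (C₁ * e) ≤ Real.exp (A * C₁ * e) :=
    Real.exp_le_exp.mpr (mul_le_mul_of_nonneg_right hCle he)
  have key : ∀ x : Fin k → ℝ, (∀ l, |x l| ≤ 1) →
      |∑ i, c i * Pool.SLP.mon (al i) x| ≤ C₁ * Real.exp (C₁ * e) * M := by
    intro x hx
    have h3 := h₁ Ω q X y (Pool.Agent.H39.SLP.gp c al 0 1) e M G hq
      (fun j => Pool.Agent.H39.SLP.gp_deg c al hal 0 1 j) he hM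
      (by simpa using hy) hH
      (le_trans (mul_le_mul hCle hexp (Real.exp_pos _).le (by positivity)) hsz) hG
      (by
        intro ω hω hqω
        rw [Pool.Agent.H39.SLP.gp_eval]
        have h4 := hsm ω hω hqω
        have h5 : (fun l => (0 : Fin k → ℝ) l + 1 / 1 * (((y ω l : ℤ) : ℝ) / 2 ^ X)) =
            fun j => ((y ω j : ℤ) : ℝ) / 2 ^ X := by
          funext l
          simp
        rw [h5]
        exact h4) x (by simpa using hx)
    rw [Pool.Agent.H39.SLP.gp_eval] at h3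
    have h5 : (fun l => (0 : Fin k → ℝ) l + 1 / 1 * x l) = x := by
      funext l
      simp
    rw [h5] at h3
    exact h3
  refine (h₂ ι al c _ hinj hal key i).trans ?_
  have h6 : 0 ≤ M * (A * C₁) := by positivity
  calc A * (C₁ * Real.exp (C₁ * e) * M) = M * (A * C₁) * Real.exp (C₁ * e) := by ring
    _ ≤ M * (A * C₁) * Real.exp (A * C₁ * e) := mul_le_mul_of_nonneg_left hexp h6
    _ = _ := by ring

end Pool.L1
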