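import Pool.Agent.H48.M5.Stmts

/-!
# Lagrange interpolation at separated nodes

Linearity, reproduction of polynomials, and a bound for the coefficients of the interpolation
polynomial at nodes which are separated.
-/

set_option autoImplicit false

namespace Pool.L1

open Finset Real Polynomial
open Pool.M5

theorem coeff_prod_le {ι : Type} [DecidableEq ι] (s : Finset ι) (a : ι → ℝ)
    (h : ∀ i ∈ s, |a i| ≤ 1) :
    ∀ m : ℕ, |(∏ i ∈ s, (X - C (a i)) : ℝ[X]).coeff m| ≤ 2 ^ s.card := by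
  induction s using Finset.induction_on with
  | empty =>
    intro m
    rw [Finset.prod_empty, Finset.card_empty, pow_zero, Polynomial.coeff_one]
    split_ifs <;> simp
  | insert i s hi ih =>
    intro m
    rw [Finset.prod_insert hi, Finset.card_insert_of_notMem hi, sub_mul, Polynomial.coeff_sub,
      Polynomial.coeff_C_mul]
    have h1 : ∀ m, |(∏ i ∈ s, (X - C (a i)) : ℝ[X]).coeff m| ≤ 2 ^ s.card :=
      ih fun j hj => h j (Finset.mem_insert_of_mem hj)
    have h2 : |a i| ≤ 1 := h i (Finset.mem_insert_self i s)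
    have h3 : |(X * ∏ i ∈ s, (X - C (a i)) : ℝ[X]).coeff m| ≤ 2 ^ s.card := by
      cases m with
      | zero => rw [Polynomial.mul_coeff_zero, Polynomial.coeff_X_zero, zero_mul, abs_zero]; positivity
      | succ m => rw [Polynomial.coeff_X_mul]; exact h1 m
    have h4 : |a i * (∏ i ∈ s, (X - C (a i)) : ℝ[X]).coeff m| ≤ 2 ^ s.card := by
      rw [abs_mul]
      calc |a i| * |(∏ i ∈ s, (X - C (a i)) : ℝ[X]).coeff m| ≤ 1 * 2 ^ s.card :=
            mul_le_mul h2 (h1 m) (abs_nonneg _) zero_le_one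
        _ = _ := one_mul _
    calc _ ≤ |(X * ∏ i ∈ s, (X - C (a i)) : ℝ[X]).coeff m| +
          |a i * (∏ i ∈ s, (X - C (a i)) : ℝ[X]).coeff m| := abs_sub _ _
      _ ≤ 2 ^ s.card + 2 ^ s.card := add_le_add h3 h4
      _ = 2 ^ (s.card + 1) := by ring

/-- The coefficients of the basis polynomials. -/
theorem coeff_basis_le {n : ℕ} (θ : Fin (n + 1) → ℝ) (k₀ : ℕ) (h1 : ∀ j, |θ j| ≤ 1)
    (hs : ∀ j j', j ≠ j' → (2 : ℝ) ^ (-(k₀ : ℤ)) ≤ |θ j - θ j'|) (j : Fin (n + 1)) (m : ℕ) :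
    |(Lagrange.basis univ θ j).coeff m| ≤ 2 ^ ((k₀ + 1) * n) := by
  unfold Lagrange.basis Lagrange.basisDivisor
  rw [Finset.prod_mul_distrib, ← map_prod, Polynomial.coeff_C_mul, abs_mul, Finset.abs_prod]
  have hcard : (univ.erase j).card = n := by
    rw [Finset.card_erase_of_mem (Finset.mem_univ j), Finset.card_univ, Fintype.card_fin]
    rfl
  have h2 : ∏ i ∈ univ.erase j, |(θ j - θ i)⁻¹| ≤ (2 ^ k₀) ^ n := by
    calc ∏ i ∈ univ.erase j, |(θ j - θ i)⁻¹| ≤ ∏ _i ∈ univ.erase j, (2 : ℝ) ^ k₀ := by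
          refine Finset.prod_le_prod (fun i _ => abs_nonneg _) fun i hi => ?_
          have h3 := hs j i (Finset.ne_of_mem_erase hi).symm
          rw [abs_inv]
          rw [zpow_neg, zpow_natCast] at h3
          have h4 : (0 : ℝ) < 2 ^ k₀ := by positivity
          exact inv_le_of_inv_le₀ h4 h3
      _ = (2 ^ k₀) ^ n := by rw [Finset.prod_const, hcard]
  have h3 := coeff_prod_le (univ.erase j) θ (fun i _ => h1 i) m
  rw [hcard] at h3
  calc _ ≤ (2 ^ k₀) ^ n * 2 ^ n := mul_le_mul h2 h3 (abs_nonneg _) (by positivity)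
    _ = 2 ^ ((k₀ + 1) * n) := by
        rw [← pow_mul, ← pow_add]
        congr 1
        ring

theorem lag_eq_sum {n : ℕ} (θ f : Fin (n + 1) → ℝ) (a : ℕ) :
    lag θ f a = ∑ j, f j * (Lagrange.basis univ θ j).coeff a := by
  unfold lag
  rw [Lagrange.interpolate_apply, Polynomial.finset_sum_coeff]
  exact Finset.sum_congr rfl fun j _ => by rw [Polynomial.coeff_C_mul]

theorem lag_add {n : ℕ} (θ f g : Fin (n + 1) → ℝ) (a : ℕ) :
    lag θ (fun j => f j + g j) a = lag θ f a + lag θ g a := by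
  simp only [lag_eq_sum, add_mul, Finset.sum_add_distrib]

theorem lag_smul {n : ℕ} (θ f : Fin (n + 1) → ℝ) (c : ℝ) (a : ℕ) :
    lag θ (fun j => f j * c) a = lag θ f a * c := by
  simp only [lag_eq_sum, Finset.sum_mul]
  exact Finset.sum_congr rfl fun j _ => by ring

theorem lag_sum {n : ℕ} {ι : Type} (s : Finset ι) (θ : Fin (n + 1) → ℝ)
    (f : ι → Fin (n + 1) → ℝ) (a : ℕ) :
    lag θ (fun j => ∑ i ∈ s, f i j) a = ∑ i ∈ s, lag θ (f i) a := by
  simp only [lag_eq_sum, Finset.sum_mul]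
  rw [Finset.sum_comm]

/-- The bound for the coefficients. -/
theorem lag_le {n : ℕ} (θ f : Fin (n + 1) → ℝ) (k₀ : ℕ) (h1 : ∀ j, |θ j| ≤ 1)
    (hs : ∀ j j', j ≠ j' → (2 : ℝ) ^ (-(k₀ : ℤ)) ≤ |θ j - θ j'|) (a : ℕ) {δ : ℝ}
    (hf : ∀ j, |f j| ≤ δ) : |lag θ f a| ≤ (n + 1) * 2 ^ ((k₀ + 1) * n) * δ := by
  rw [lag_eq_sum]
  have hδ : 0 ≤ δ := (abs_nonneg _).trans (hf 0)
  calc |∑ j, f j * (Lagrange.basis univ θ j).coeff a| ≤
        ∑ j, |f j * (Lagrange.basis univ θ j).coeff a| := Finset.abs_sum_le_sum_abs _ _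
    _ ≤ ∑ _j : Fin (n + 1), δ * 2 ^ ((k₀ + 1) * n) := by
        refine Finset.sum_le_sum fun j _ => ?_
        rw [abs_mul]
        exact mul_le_mul (hf j) (coeff_basis_le θ k₀ h1 hs j a) (abs_nonneg _) hδ
    _ = _ := by
        rw [Finset.sum_const, nsmul_eq_mul, Finset.card_univ, Fintype.card_fin]
        push_cast
        ring

/-- Polynomials are reproduced. -/
theorem lag_poly {n : ℕ} (θ : Fin (n + 1) → ℝ) (hθ : Function.Injective θ) (c : ℝ)
    (B : Fin n → ℝ) (a : Fin n) :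
    lag θ (fun j => c + ∑ b : Fin n, θ j ^ (b.val + 1) * B b) (a.val + 1) = B a := by
  classical
  set p : ℝ[X] := C c + ∑ b : Fin n, C (B b) * X ^ (b.val + 1) with hp
  have h1 : p.degree < (univ : Finset (Fin (n + 1))).card := by
    rw [Finset.card_univ, Fintype.card_fin]
    refine (Polynomial.degree_lt_iff_coeff_zero _ _).2 fun m hm => ?_
    rw [hp, Polynomial.coeff_add, Polynomial.coeff_C, if_neg (by omega), zero_add,
      Polynomial.finset_sum_coeff]
    refine Finset.sum_eq_zero fun b _ => ?_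
    rw [Polynomial.coeff_C_mul, Polynomial.coeff_X_pow, if_neg (by
      have := b.2
      omega), mul_zero]
  have h2 := Lagrange.eq_interpolate_of_eval_eq (s := univ) (v := θ) (f := p)
    (fun j => c + ∑ b : Fin n, θ j ^ (b.val + 1) * B b) (fun _ _ _ _ h => hθ h) h1 (by
      intro j _
      rw [hp, Polynomial.eval_add, Polynomial.eval_C, Polynomial.eval_finset_sum]
      congr 1
      refine Finset.sum_congr rfl fun b _ => ?_
      rw [Polynomial.eval_mul, Polynomial.eval_C, Polynomial.eval_pow, Polynomial.eval_X]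
      ring)
  unfold lag
  rw [← h2, hp, Polynomial.coeff_add, Polynomial.coeff_C, if_neg (by omega), zero_add,
    Polynomial.finset_sum_coeff, Finset.sum_eq_single a]
  · rw [Polynomial.coeff_C_mul, Polynomial.coeff_X_pow, if_pos rfl, mul_one]
  · intro b _ hb
    rw [Polynomial.coeff_C_mul, Polynomial.coeff_X_pow, if_neg (by
      intro h
      exact hb (Fin.ext (by omega))), mul_zero]
  · intro h
    exact absurd (Finset.mem_univ a) h

/-- Powers on the unit interval. -/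
theorem pow_sub_le {x y : ℝ} (hx : 0 ≤ x) (hx1 : x ≤ 1) (hy : 0 ≤ y) (hy1 : y ≤ 1) (m : ℕ) :
    |x ^ m - y ^ m| ≤ m * |x - y| := by
  induction m with
  | zero => simp
  | succ m ih =>
    have h1 : x ^ (m + 1) - y ^ (m + 1) = x ^ m * (x - y) + (x ^ m - y ^ m) * y := by ring
    rw [h1]
    have h2 : |x ^ m * (x - y)| ≤ 1 * |x - y| := by
      rw [abs_mul]
      refine mul_le_mul_of_nonneg_right ?_ (abs_nonneg _)
      rw [abs_of_nonneg (pow_nonneg hx m)]
      exact pow_le_one₀ hx hx1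
    have h3 : |(x ^ m - y ^ m) * y| ≤ m * |x - y| * 1 := by
      rw [abs_mul, abs_of_nonneg hy]
      exact mul_le_mul ih hy1 hy (by positivity)
    refine (abs_add_le _ _).trans ?_
    push_cast
    linarith

/-- **Two references of one line.** `φ` is a function of the time; relative to the nodes `θ₁` it is
`E + Σ th ^ (a + 1) B a` with `E` nearly constant at the nodes `θ₂` and at a pair `x, y`: then its
difference at the pair relative to the nodes `θ₂` is small. -/
theorem two_ref {n : ℕ} (k₀ : ℕ) {τ : Type} (th φ : τ → ℝ) (hth : ∀ t, 0 ≤ th t ∧ th t ≤ 1)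
    (B : Fin n → ℝ) (v : Fin (n + 1) → τ)
    (hs : ∀ j j', j ≠ j' → (2 : ℝ) ^ (-(k₀ : ℤ)) ≤ |th (v j) - th (v j')|) (x y : τ) {δ : ℝ}
    (h0 : ∀ j, |(φ (v j) - φ (v 0)) - ∑ a : Fin n, (th (v j) ^ (a.val + 1) -
      th (v 0) ^ (a.val + 1)) * B a| ≤ δ)
    (h1 : |(φ y - φ x) - ∑ a : Fin n, (th y ^ (a.val + 1) - th x ^ (a.val + 1)) * B a| ≤
      δ * |th y - th x|) :
    |(φ y - φ x) - ∑ a : Fin n, (th y ^ (a.val + 1) - th x ^ (a.val + 1)) *
      lag (fun j => th (v j)) (fun j => φ (v j)) (a.val + 1)| ≤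
      (1 + n ^ 2 * ((n + 1) * 2 ^ ((k₀ + 1) * n))) * δ * |th y - th x| := by
  have hδ : 0 ≤ δ := (abs_nonneg _).trans (h0 0)
  set θ : Fin (n + 1) → ℝ := fun j => th (v j) with hθ
  have hinj : Function.Injective θ := by
    intro j j' h
    by_contra hne
    have h2 := hs j j' hne
    have h3 : th (v j) - th (v j') = 0 := sub_eq_zero.2 h
    rw [h3, abs_zero] at h2
    have h4 : (0 : ℝ) < (2 : ℝ) ^ (-(k₀ : ℤ)) := by positivity
    linarith
  set E : Fin (n + 1) → ℝ := fun j => (φ (v j) - φ (v 0)) - ∑ a : Fin n, (th (v j) ^ (a.val + 1) -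
      th (v 0) ^ (a.val + 1)) * B a with hE
  have hlag : ∀ a : Fin n, lag θ (fun j => φ (v j)) (a.val + 1) = lag θ E (a.val + 1) + B a := by
    intro a
    have h2 : (fun j => φ (v j)) = fun j => E j + ((φ (v 0) - ∑ a : Fin n,
        th (v 0) ^ (a.val + 1) * B a) + ∑ a : Fin n, θ j ^ (a.val + 1) * B a) := by
      funext j
      simp only [hE, hθ, sub_mul, Finset.sum_sub_distrib]
      ring
    rw [h2, lag_add, lag_poly θ hinj]
  have hEb : ∀ a : Fin n, |lag θ E (a.val + 1)| ≤ (n + 1) * 2 ^ ((k₀ + 1) * n) * δ := by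
    intro a
    refine lag_le θ E k₀ (fun j => ?_) hs _ h0
    rw [abs_le]
    have := hth (v j)
    constructor <;> simp only [hθ] <;> linarith
  have h2 : (φ y - φ x) - ∑ a : Fin n, (th y ^ (a.val + 1) - th x ^ (a.val + 1)) *
      lag θ (fun j => φ (v j)) (a.val + 1) =
      ((φ y - φ x) - ∑ a : Fin n, (th y ^ (a.val + 1) - th x ^ (a.val + 1)) * B a) -
      ∑ a : Fin n, (th y ^ (a.val + 1) - th x ^ (a.val + 1)) * lag θ E (a.val + 1) := by
    simp only [hlag, mul_add, Finset.sum_add_distrib]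
    ring
  rw [h2]
  have h3 : |∑ a : Fin n, (th y ^ (a.val + 1) - th x ^ (a.val + 1)) * lag θ E (a.val + 1)| ≤
      n ^ 2 * ((n + 1) * 2 ^ ((k₀ + 1) * n)) * δ * |th y - th x| := by
    refine (Finset.abs_sum_le_sum_abs _ _).trans ?_
    have h4 : ∀ a ∈ (univ : Finset (Fin n)), |(th y ^ (a.val + 1) - th x ^ (a.val + 1)) *
        lag θ E (a.val + 1)| ≤ (n * |th y - th x|) * ((n + 1) * 2 ^ ((k₀ + 1) * n) * δ) := by
      intro a _
      rw [abs_mul]
      refine mul_le_mul ?_ (hEb a) (abs_nonneg _) (by positivity)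
      refine (pow_sub_le (hth y).1 (hth y).2 (hth x).1 (hth x).2 (a.val + 1)).trans ?_
      refine mul_le_mul_of_nonneg_right ?_ (abs_nonneg _)
      exact_mod_cast a.2
    refine (Finset.sum_le_sum h4).trans (le_of_eq ?_)
    rw [Finset.sum_const, nsmul_eq_mul, Finset.card_univ, Fintype.card_fin]
    ring
  refine (abs_sub _ _).trans ?_
  have h5 := add_le_add h1 h3
  refine h5.trans (le_of_eq ?_)
  ring

end Pool.L1
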